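import Mathlib
import Pool.Agent.Helper40.CX.H51VN.Pth
import Pool.Agent.Helper40.CX.Good2

namespace CX

/-!
# The action of the sixth roots of unity
-/

set_option linter.unusedSectionVars false

namespace Pool.Agent.Helper51.VN

open VC VF VP Function

universe u

section root

variable {F : Type*} [Field F] {ω : F}

lemma om3 (hω : ω ^ 2 + ω + 1 = 0) : ω ^ 3 = 1 := by linear_combination (ω - 1) * hω

lemma om_ne (hω : ω ^ 2 + ω + 1 = 0) : ω ≠ 0 := by
  rintro rfl
  norm_num at hω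

lemma om_add (hω : ω ^ 2 + ω + 1 = 0) (m n : ZMod 3) :
    ω ^ (m + n).val = ω ^ m.val * ω ^ n.val := by
  have h3 := om3 hω
  rw [ZMod.val_add, ← pow_add]
  conv_rhs => rw [← Nat.div_add_mod (m.val + n.val) 3]
  rw [pow_add, pow_mul, h3, one_pow, one_mul]

lemma om_zero (ω : F) : ω ^ (0 : ZMod 3).val = 1 := by
  rw [ZMod.val_zero, pow_zero]

lemma om_sum (hω : ω ^ 2 + ω + 1 = 0) {ι : Type*} (s : Finset ι) (m : ι → ZMod 3) :
    ω ^ (∑ i ∈ s, m i).val = ∏ i ∈ s, ω ^ (m i).val := by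
  classical
  induction s using Finset.induction_on with
  | empty => simp
  | insert a s ha ih => rw [Finset.sum_insert ha, Finset.prod_insert ha, om_add hω, ih]

lemma om_neg (hω : ω ^ 2 + ω + 1 = 0) (m : ZMod 3) :
    ω ^ (-m).val * ω ^ m.val = 1 := by
  rw [← om_add hω, neg_add_cancel, om_zero]

lemma om_pow6 (hω : ω ^ 2 + ω + 1 = 0) (n : ℕ) : (ω ^ n) ^ 6 = 1 := by
  rw [← pow_mul, mul_comm, pow_mul, show ω ^ 6 = 1 by
    linear_combination (ω ^ 3 + 1) * om3 hω, one_pow]

lemma om_pow3 (hω : ω ^ 2 + ω + 1 = 0) (n : ℕ) : (ω ^ n) ^ 3 = 1 := by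
  rw [← pow_mul, mul_comm, pow_mul, om3 hω, one_pow]

/-- A cube root of unity is a power of `ω`. -/
lemma cube_root (hω : ω ^ 2 + ω + 1 = 0) {x : F} (hx : x ^ 3 = 1) :
    ∃ m : ZMod 3, x = ω ^ m.val := by
  have h : (x - 1) * ((x - ω) * (x - ω ^ 2)) = 0 := by
    linear_combination hx + (-x ^ 2 + x * ω - ω + 1) * hω
  rcases mul_eq_zero.mp h with h | h
  · exact ⟨0, by rw [om_zero]; exact sub_eq_zero.mp h⟩
  rcases mul_eq_zero.mp h with h | h
  · exact ⟨1, by
      rw [sub_eq_zero.mp h]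
      change ω = ω ^ 1
      rw [pow_one]⟩
  · exact ⟨2, sub_eq_zero.mp h⟩

/-- A sixth root of unity is `±` a power of `ω`. -/
lemma six_root (hω : ω ^ 2 + ω + 1 = 0) {x : F} (hx : x ^ 6 = 1) :
    ∃ (s : F) (m : ZMod 3), (s = 1 ∨ s = -1) ∧ x = s * ω ^ m.val := by
  have h1 : x ^ 3 * x ^ 3 = 1 := by rw [← hx]; ring
  rcases mul_self_eq_one_iff.mp h1 with h | h
  · obtain ⟨m, hm⟩ := cube_root hω h
    exact ⟨1, m, Or.inl rfl, by rw [one_mul]; exact hm⟩
  · obtain ⟨m, hm⟩ := cube_root hω (x := -x) (by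
      rw [Odd.neg_pow (by decide), h, neg_neg])
    exact ⟨-1, m, Or.inr rfl, by rw [neg_one_mul, ← hm, neg_neg]⟩

/-- The sign. -/
def sg (F : Type*) [Ring F] (b : Bool) : F := if b then -1 else 1

lemma sg_mul (b c : Bool) : sg F (b ^^ c) = sg F b * sg F c := by
  cases b <;> cases c <;> simp [sg]

lemma om_mul_eq [Good F] (hω : ω ^ 2 + ω + 1 = 0) {b c : Bool} {m n : ZMod 3}
    (h : sg F b * ω ^ m.val = sg F c * ω ^ n.val) : b = c ∧ m = n := by
  have h2 : (2 : F) ≠ 0 := Good.two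
  have h3 : (3 : F) ≠ 0 := Good.three
  have hω1 : ω ≠ 1 := by
    rintro rfl
    apply h3
    linear_combination hω
  have hcube := congrArg (fun x => x ^ 3) h
  simp only [mul_pow, om_pow3 hω, mul_one] at hcube
  have hbc : b = c := by
    cases b <;> cases c <;> simp [sg] at hcube ⊢
    · apply h2
      linear_combination hcube
    · apply h2
      linear_combination -hcube
  subst hbc
  have hs : sg F b ≠ 0 := by cases b <;> simp [sg]
  have h4 := mul_left_cancel₀ hs h
  refine ⟨rfl, ?_⟩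
  have h5 : ω ^ (m - n).val = 1 := by
    have h6 := om_add hω (m - n) n
    rw [sub_add_cancel, h4] at h6
    have h7 : ω ^ n.val ≠ 0 := pow_ne_zero _ (om_ne hω)
    exact (mul_right_cancel₀ h7 (by rw [one_mul, ← h6])).symm
  have h6 : ∀ d : ZMod 3, ω ^ d.val = 1 → d = 0 := by
    intro d hd
    have hd3 : ∀ d : ZMod 3, d = 0 ∨ d = 1 ∨ d = 2 := by decide
    rcases hd3 d with rfl | rfl | rfl
    · rfl
    · exfalso
      apply hω1
      have : ω ^ (1 : ZMod 3).val = ω := pow_one ω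
      rw [← this, hd]
    · exfalso
      have h8 : ω ^ (2 : ZMod 3).val = ω ^ 2 := rfl
      rw [h8] at hd
      rw [hd] at hω
      have h9 : ω = -2 := by linear_combination hω
      rw [h9] at hd
      apply h3
      linear_combination hd
  exact sub_eq_zero.mp (h6 _ h5)

open Classical in
/-- The isomorphism of the groups of the sixth roots of unity which maps `ω` to `θ`. -/
noncomputable def chi (ω : F) (θ : ℂ) (η : F) : ℂ :=
  if h : ∃ p : Bool × ZMod 3, η = sg F p.1 * ω ^ p.2.val then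
    sg ℂ h.choose.1 * θ ^ h.choose.2.val else 0

lemma chi_eq [Good F] {θ : ℂ} (hω : Cub ω θ) (b : Bool) (m : ZMod 3) :
    chi ω θ (sg F b * ω ^ m.val) = sg ℂ b * θ ^ m.val := by
  have hex : ∃ p : Bool × ZMod 3, sg F b * ω ^ m.val = sg F p.1 * ω ^ p.2.val := ⟨(b, m), rfl⟩
  unfold chi
  rw [dif_pos hex]
  obtain ⟨h1, h2⟩ := om_mul_eq hω.k hex.choose_spec
  rw [← h1, ← h2]

lemma six_root' (hω : ω ^ 2 + ω + 1 = 0) {x : F} (hx : x ^ 6 = 1) :
    ∃ (b : Bool) (m : ZMod 3), x = sg F b * ω ^ m.val := by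
  obtain ⟨s, m, hs, h⟩ := six_root hω hx
  rcases hs with rfl | rfl
  · exact ⟨false, m, by simpa [sg] using h⟩
  · exact ⟨true, m, by simpa [sg] using h⟩

lemma chi_mul [Good F] {θ : ℂ} (hω : Cub ω θ) {x y : F} (hx : x ^ 6 = 1) (hy : y ^ 6 = 1) :
    chi ω θ (x * y) = chi ω θ x * chi ω θ y := by
  obtain ⟨b, m, rfl⟩ := six_root' hω.k hx
  obtain ⟨c, n, rfl⟩ := six_root' hω.k hy
  have e : sg F b * ω ^ m.val * (sg F c * ω ^ n.val) = sg F (b ^^ c) * ω ^ (m + n).val := by
    rw [sg_mul, om_add hω.k]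
    ring
  rw [e, chi_eq hω, chi_eq hω, chi_eq hω, sg_mul, om_add hω.c]
  ring

lemma chi_one [Good F] {θ : ℂ} (hω : Cub ω θ) : chi ω θ 1 = 1 := by
  have := chi_eq hω false 0
  simpa [sg] using this

lemma chi_neg_one [Good F] {θ : ℂ} (hω : Cub ω θ) : chi ω θ (-1) = -1 := by
  have := chi_eq hω true 0
  simpa [sg] using this

lemma chi_om [Good F] {θ : ℂ} (hω : Cub ω θ) : chi ω θ ω = θ := by
  have := chi_eq hω false 1
  have e1 : ω ^ (1 : ZMod 3).val = ω := pow_one ω
  have e2 : θ ^ (1 : ZMod 3).val = θ := pow_one θ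
  rw [e1, e2] at this
  simpa [sg] using this

lemma chi_prod [Good F] {θ : ℂ} (hω : Cub ω θ) {ι : Type*} (s : Finset ι) {x : ι → F}
    (hx : ∀ i, x i ^ 6 = 1) : chi ω θ (∏ i ∈ s, x i) = ∏ i ∈ s, chi ω θ (x i) := by
  classical
  induction s using Finset.induction_on with
  | empty => simpa using chi_one hω
  | insert a s ha ih =>
    rw [Finset.prod_insert ha, Finset.prod_insert ha, chi_mul hω (hx a), ih]
    rw [← Finset.prod_pow]
    exact Finset.prod_eq_one fun i _ => hx i

lemma exists_cub {ω : F} (hω : ω ^ 2 + ω + 1 = 0) : ∃ θ : ℂ, Cub ω θ := by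
  obtain ⟨s, hs⟩ := IsAlgClosed.exists_pow_nat_eq (-3 : ℂ) two_pos
  refine ⟨(-1 + s) / 2, hω, ?_⟩
  linear_combination hs / 4

end root

variable {k : Type u} [Field k] [IsAlgClosed k] [Good k] {ι : Type} [Fintype ι]
  [DecidableEq ι] {a b : ι → k} {ψ : (ι → k × k) → ℂ}

/-- Changing signs of second coordinates. -/
lemma Fun.signs (h : Fun a b ψ) {x y : ι → k} (hE : ∀ i, OnE (a i) (b i) (x i) (y i))
    (s : ι → Bool) :
    ψ (fun i => (x i, sg k (s i) * y i)) = (∏ i, sg ℂ (s i)) * ψ (fun i => (x i, y i)) := by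
  have hs : ∀ i, (sg k (s i) = 1 ∧ sg ℂ (s i) = 1) ∨ (sg k (s i) = -1 ∧ sg ℂ (s i) = -1) := by
    intro i
    cases s i <;> simp [sg]
  have key : ∀ T : Finset ι, ψ (fun i => (x i, if i ∈ T then sg k (s i) * y i else y i)) =
      (∏ i ∈ T, sg ℂ (s i)) * ψ (fun i => (x i, y i)) := by
    intro T
    induction T using Finset.induction_on with
    | empty => simp
    | insert c T hc ih =>
      rw [Finset.prod_insert hc, mul_assoc, ← ih]
      have hE' : ∀ j, OnE (a j) (b j) (x j) (if j ∈ T then sg k (s j) * y j else y j) := by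
        intro j
        split_ifs
        · have := hE j
          unfold OnE at this ⊢
          rw [mul_pow, this]
          rcases hs j with ⟨e, -⟩ | ⟨e, -⟩ <;> rw [e] <;> ring
        · exact hE j
      rcases hs c with ⟨e, e'⟩ | ⟨e, e'⟩
      · rw [e', one_mul]
        congr 1
        funext j
        by_cases hj : j = c
        · subst hj
          rw [if_pos (Finset.mem_insert_self _ _), if_neg hc, e, one_mul]
        · simp only [Finset.mem_insert, hj, false_or]
      · rw [e', neg_one_mul]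
        have := h.odd (fun i => (x i, if i ∈ T then sg k (s i) * y i else y i)) c hE'
        rw [← this]
        congr 1
        funext j
        by_cases hj : j = c
        · subst hj
          rw [update_self, if_pos (Finset.mem_insert_self _ _)]
          simp only [if_neg hc, e, neg_one_mul]
        · rw [update_of_ne hj]
          simp only [Finset.mem_insert, hj, false_or]
  have := key Finset.univ
  simpa using this

theorem FF_mu (h : Fun a b ψ) {ω : k} {θ : ℂ} (hω : Cub ω θ) {z v η : ι → k}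
    (hX : ∀ i, OnX (b i) (disc a b i) (z i) (v i)) (hη : ∀ i, η i ^ 6 = 1) :
    FF ω θ a (disc a b) ψ z (fun i => η i * v i) =
      chi ω θ (∏ i, η i) * FF ω θ a (disc a b) ψ z v := by
  choose s m hm using fun i => six_root' hω.k (hη i)
  have hs : ∀ i, sg k (s i) = 1 ∨ sg k (s i) = -1 := by
    intro i
    cases s i <;> simp [sg]
  unfold FF
  rw [Finset.mul_sum]
  refine Fintype.sum_equiv (Equiv.addRight m) _ _ ?_
  intro e
  change _ = chi ω θ (∏ i, η i) * (θ ^ (-∑ i, (e i + m i)).val * ψ (fun i =>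
    (px (a i) (ω ^ (e i + m i).val * v i), py (disc a b i) (z i) (ω ^ (e i + m i).val * v i))))
  have hv : ∀ i, ω ^ (e i).val * (η i * v i) = sg k (s i) * (ω ^ (e i + m i).val * v i) := by
    intro i
    rw [om_add hω.k, hm i]
    ring
  have h1 : ∀ i, px (a i) (ω ^ (e i).val * (η i * v i)) = px (a i) (ω ^ (e i + m i).val * v i) := by
    intro i
    rw [hv i]
    rcases hs i with e' | e'
    · rw [e', one_mul]
    · rw [e', neg_one_mul, px_neg]
  have h2 : ∀ i, py (disc a b i) (z i) (ω ^ (e i).val * (η i * v i)) =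
      sg k (s i) * py (disc a b i) (z i) (ω ^ (e i + m i).val * v i) := by
    intro i
    rw [hv i]
    rcases hs i with e' | e'
    · rw [e', one_mul, one_mul]
    · rw [e', neg_one_mul, neg_one_mul, py_neg]
  simp only [h1, h2]
  rw [h.signs (x := fun i => px (a i) (ω ^ (e i + m i).val * v i))
    (y := fun i => py (disc a b i) (z i) (ω ^ (e i + m i).val * v i))
    (fun i => ((hX i).mul_six (om_pow6 hω.k _)).onE rfl) s]
  have h3 : chi ω θ (∏ i, η i) = (∏ i, sg ℂ (s i)) * θ ^ (∑ i, m i).val := by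
    rw [om_sum hω.c, ← Finset.prod_mul_distrib, chi_prod hω _ hη]
    exact Finset.prod_congr rfl (fun i _ => by rw [hm i, chi_eq hω])
  have h4 : θ ^ (-∑ i, e i).val = θ ^ (∑ i, m i).val * θ ^ (-∑ i, (e i + m i)).val := by
    rw [← om_add hω.c]
    congr 2
    rw [Finset.sum_add_distrib]
    abel
  rw [h3, h4]
  ring

end Pool.Agent.Helper51.VN

end CX
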