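import Mathlib
import Pool.Agent.Helper40.CX.H51VN.Mu
import Pool.Agent.Helper40.CX.Good2

namespace CX

/-!
# Lemma P: pencils of degree two
-/

set_option linter.unusedSectionVars false

namespace Pool.Agent.Helper51.VN

open VC VF VP Function
open Pool.Agent.Helper83.KV (Om zO zO_tr exists_ff)

universe u

section field

variable {F : Type*} [Field F] [IsAlgClosed F] [Good F] {ι : Type*} [Fintype ι]
  [DecidableEq ι] [Nonempty ι]

/-- Points of the coverings with given first coordinates and given product of the second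
coordinates. -/
lemma exists_v {b D z : ι → F} {V : F} (hz : ∀ i, z i ≠ 0) (hV : V ≠ 0)
    (h : V ^ 6 = ∏ i, (z i + b i + D i / (4 * z i))) :
    ∃ v : ι → F, (∀ i, OnX (b i) (D i) (z i) (v i)) ∧ ∏ i, v i = V := by
  obtain ⟨i0⟩ := ‹Nonempty ι›
  choose w hw using fun i => IsAlgClosed.exists_pow_nat_eq (z i + b i + D i / (4 * z i))
    (n := 6) (by norm_num)
  have hne : ∀ i, z i + b i + D i / (4 * z i) ≠ 0 := by
    intro i h0
    apply pow_ne_zero 6 hV
    rw [h]
    exact Finset.prod_eq_zero (Finset.mem_univ i) h0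
  have hw0 : ∀ i, w i ≠ 0 := by
    intro i h0
    apply hne i
    rw [← hw i, h0]
    norm_num
  have hP : ∏ i, w i ≠ 0 := Finset.prod_ne_zero_iff.mpr (fun i _ => hw0 i)
  obtain ⟨η, hη⟩ : ∃ η, η = V / ∏ i, w i := ⟨_, rfl⟩
  have hη6 : η ^ 6 = 1 := by
    rw [hη, div_pow, h, ← Finset.prod_pow]
    simp only [hw]
    rw [div_self]
    exact Finset.prod_ne_zero_iff.mpr (fun i _ => hne i)
  have hX : ∀ i, OnX (b i) (D i) (z i) (w i) := fun i => ⟨hz i, hw0 i, hw i⟩
  refine ⟨fun i => (if i = i0 then η else 1) * w i, fun i => (hX i).mul_six ?_, ?_⟩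
  · split_ifs
    · exact hη6
    · exact one_pow _
  · rw [Finset.prod_mul_distrib, Finset.prod_ite_eq' Finset.univ i0 (fun _ => η),
      if_pos (Finset.mem_univ _), hη, div_mul_cancel₀ _ hP]

end field

/-- Finitely many elements of an algebraic closure of `k(z)` lie in a function field. -/
theorem exists_ff' {k : Type u} [Field k] {α : Type} [Fintype α] (a : α → Om k) :
    ∃ (K : Type u) (_ : Field K) (_ : Algebra k K) (j : K →ₐ[k] Om k) (t : K) (b : α → K),
      IsFunctionField k K ∧ Transcendental k t ∧ j t = zO k ∧ ∀ i, j (b i) = a i := by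
  obtain ⟨K, h1, h2, j, t, b, h3, h4, h5, h6⟩ :=
    exists_ff (fun i => a ((Fintype.equivFin α).symm i))
  refine ⟨K, h1, h2, j, t, fun i => b (Fintype.equivFin α i), h3, h4, h5, fun i => ?_⟩
  rw [h6, Equiv.symm_apply_apply]

section res

variable {k : Type u} [Field k] [IsAlgClosed k] [Good k] {K : Type u} [Field K] [Algebra k K]

lemma mem_of_quad {R : ValuationSubring K} {x s p : K} (hs : s ∈ R) (hp : p ∈ R)
    (h : x ^ 2 - s * x + p = 0) : x ∈ R := by
  by_contra hx
  have h0 : x ≠ 0 := by rintro rfl; exact hx R.zero_mem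
  have h1 : x⁻¹ ∈ R := (R.mem_or_inv_mem x).resolve_left hx
  apply hx
  have : x = s - p * x⁻¹ := by
    field_simp
    linear_combination h
  rw [this]
  exact sub_mem hs (R.mul_mem _ _ hp h1)

/-- The values of the two roots of a quadratic polynomial. -/
lemma res_roots (hK : IsFunctionField k K) {w : Place k K} {x y : K} {c d : k}
    (hs : IsRes w (x + y) (c + d)) (hp : IsRes w (x * y) (c * d)) :
    (IsRes w x c ∧ IsRes w y d) ∨ (IsRes w x d ∧ IsRes w y c) := by
  have hx : x ∈ w.ring := mem_of_quad hs.mem hp.mem (by ring)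
  obtain ⟨e, he⟩ := exists_res hK hx
  have hy : IsRes w y (c + d - e) := by
    have := hs.sub he
    rwa [add_sub_cancel_left] at this
  have h1 := (he.mul hy).unique hp
  have h2 : (e - c) * (e - d) = 0 := by linear_combination -h1
  rcases mul_eq_zero.mp h2 with h3 | h3
  · left
    have : e = c := sub_eq_zero.mp h3
    rw [this] at he hy
    refine ⟨he, ?_⟩
    rwa [add_sub_cancel_left] at hy
  · right
    have : e = d := sub_eq_zero.mp h3
    rw [this] at he hy
    refine ⟨he, ?_⟩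
    rwa [add_sub_cancel_right] at hy

lemma isRes_aeval' {w : Place k K} {x : K} {c : k} (h : IsRes w x c) (p : Polynomial k) :
    IsRes w (Polynomial.aeval x p) (Polynomial.aeval c p) := by
  induction p using Polynomial.induction_on with
  | C a =>
    rw [Polynomial.aeval_C, Polynomial.aeval_C]
    exact isRes_const a
  | add p q hp hq => rw [map_add, map_add]; exact hp.add hq
  | monomial n a _ =>
    rw [map_mul, map_mul, map_pow, map_pow, Polynomial.aeval_C, Polynomial.aeval_C,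
      Polynomial.aeval_X, Polynomial.aeval_X]
    exact (isRes_const a).mul (h.pow _)

lemma isRes_prod {w : Place k K} {ι : Type*} (s : Finset ι) {x : ι → K} {c : ι → k}
    (h : ∀ i, IsRes w (x i) (c i)) : IsRes w (∏ i ∈ s, x i) (∏ i ∈ s, c i) := by
  classical
  induction s using Finset.induction_on with
  | empty => simpa using isRes_one (v := w)
  | insert a s ha ih =>
    rw [Finset.prod_insert ha, Finset.prod_insert ha]
    exact (h a).mul ih

lemma isRes_four' {w : Place k K} : IsRes w (4 : K) (4 : k) := by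
  have := isRes_const (v := w) (4 : k)
  rwa [map_ofNat] at this

end res

variable {k : Type u} [Field k] [IsAlgClosed k] [Good k] {ι : Type} [Fintype ι]
  [DecidableEq ι] [Nonempty ι] {a b : ι → k} {ψ : (ι → k × k) → ℂ}

lemma onX_of_inj {K L : Type*} [Field K] [Field L] (f : K →+* L) {b D z v : K}
    (h : OnX (f b) (f D) (f z) (f v)) : OnX b D z v := by
  obtain ⟨h1, h2, h3⟩ := h
  refine ⟨fun h0 => h1 (by rw [h0, map_zero]), fun h0 => h2 (by rw [h0, map_zero]),
    f.injective ?_⟩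
  rw [map_pow, h3]
  simp only [map_add, map_div₀, map_mul, map_ofNat]

/-- The value of `FF` at a place of a function field, given that of the first coordinates and the
product of the second ones. -/
lemma FF_val (h : Fun a b ψ) {ω : k} {θ : ℂ} (hω : Cub ω θ) {K : Type u} [Field K] [Algebra k K]
    (hK : IsFunctionField k K) {z v : ι → K}
    (hX : ∀ i, OnX (algebraMap k K (b i)) (algebraMap k K (disc a b i)) (z i) (v i))
    {F : Place k K → ℂ} (hF : ∀ (w : Place k K) (z0 v0 : ι → k),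
      (∀ i, IsRes w (z i) (z0 i)) → (∀ i, IsRes w (v i) (v0 i)) → (∀ i, z0 i ≠ 0) →
      (∀ i, v0 i ≠ 0) → F w = FF ω θ a (disc a b) ψ z0 v0) {w : Place k K} {z0 v0 : ι → k} {c : k}
    (hX0 : ∀ i, OnX (b i) (disc a b i) (z0 i) (v0 i)) (hz : ∀ i, IsRes w (z i) (z0 i))
    (hc : IsRes w (∏ i, v i) c) :
    F w = chi ω θ (c / (∏ i, v0 i)) * FF ω θ a (disc a b) ψ z0 v0 := by
  have h1 : ∀ i, ∃ e, IsRes w (v i) e ∧ e ^ 6 = v0 i ^ 6 := by
    intro i
    have h2 : IsRes w (v i ^ 6) (v0 i ^ 6) := by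
      rw [(hX i).2.2, (hX0 i).2.2]
      exact ((hz i).add (isRes_const _)).add (res_div hK (isRes_const _)
        (isRes_four'.mul (hz i)) (mul_ne_zero (by norm_num) (hX0 i).1))
    exact exists_res_of_pow hK (by norm_num) h2
  choose e he he6 using h1
  have hv0 : ∀ i, v0 i ≠ 0 := fun i => (hX0 i).2.1
  have he0 : ∀ i, e i ≠ 0 := by
    intro i h0
    have := he6 i
    rw [h0] at this
    exact pow_ne_zero 6 (hv0 i) (by rw [← this]; norm_num)
  rw [hF w z0 e hz he (fun i => (hX0 i).1) he0]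
  have h3 : ∏ i, e i = c := (isRes_prod Finset.univ he).unique hc
  have h4 : ∀ i, e i / v0 i * v0 i = e i := fun i => div_mul_cancel₀ _ (hv0 i)
  have h5 := FF_mu h hω (η := fun i => e i / v0 i) hX0 (fun i => by
    rw [div_pow, he6, div_self (pow_ne_zero 6 (hv0 i))])
  simp only [h4] at h5
  rw [h5, Finset.prod_div_distrib, h3]

/-- Lemma P: the first coordinates move in a pencil on which the product of the functions
`z + b + D / (4 z)` has degree two. -/
theorem lemP (h : Fun a b ψ) {ω : k} {θ : ℂ} (hω : Cub ω θ) {N M : ι → Polynomial k}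
    {P Q : Polynomial k} (hP : P.natDegree ≤ 2) (hQ : Q.natDegree ≤ 2)
    (hPQ : (∏ i, (4 * N i ^ 2 + 4 * Polynomial.C (b i) * N i * M i +
      Polynomial.C (disc a b i) * M i ^ 2)) * Q = P * ∏ i, (4 * N i * M i))
    {x0 x1 c v0 : k} (hc : c ≠ 0) (hv0 : v0 ≠ 0)
    (h01 : P - Polynomial.C (v0 ^ 6) * Q =
      Polynomial.C c * ((Polynomial.X - Polynomial.C x0) * (Polynomial.X - Polynomial.C x1)))
    (hN0 : ∀ i, (N i).eval x0 ≠ 0) (hN1 : ∀ i, (N i).eval x1 ≠ 0)
    (hM0 : ∀ i, (M i).eval x0 ≠ 0) (hM1 : ∀ i, (M i).eval x1 ≠ 0)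
    (hQ0 : Q.eval x0 ≠ 0) (hQ1 : Q.eval x1 ≠ 0) {v v' : ι → k}
    (hX : ∀ i, OnX (b i) (disc a b i) ((N i).eval x0 / (M i).eval x0) (v i))
    (hX' : ∀ i, OnX (b i) (disc a b i) ((N i).eval x1 / (M i).eval x1) (v' i))
    (hv : ∏ i, v i = v0) (hv' : ∏ i, v' i = v0) :
    FF ω θ a (disc a b) ψ (fun i => (N i).eval x0 / (M i).eval x0) v +
      FF ω θ a (disc a b) ψ (fun i => (N i).eval x1 / (M i).eval x1) v' = 0 := by
  classical
  have hGOm : Good (Om k) := Good.ext k
  obtain ⟨V, hV⟩ : ∃ V, V = zO k := ⟨_, rfl⟩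
  have hVtr : Transcendental k V := by rw [hV]; exact zO_tr
  have hω3 := om3 hω.k
  have hω0 := om_ne hω.k
  -- coefficients
  have q2 : ∀ (R : Polynomial k), R.natDegree ≤ 2 → ∀ (K : Type u) [Field K] [Algebra k K] (x : K),
      Polynomial.aeval x R = algebraMap k K (R.coeff 0) + algebraMap k K (R.coeff 1) * x +
        algebraMap k K (R.coeff 2) * x ^ 2 := by
    intro R hR K _ _ x
    rw [Polynomial.aeval_eq_sum_range' (n := 3) (by omega), Finset.sum_range_succ,
      Finset.sum_range_succ, Finset.sum_range_one]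
    simp only [Algebra.smul_def, pow_zero, pow_one, mul_one]
  have c2 : P.coeff 2 - v0 ^ 6 * Q.coeff 2 = c := by
    have := congrArg (fun p => Polynomial.coeff p 2) h01
    simp only [Polynomial.coeff_sub, Polynomial.coeff_C_mul] at this
    rw [this]
    have e : (Polynomial.X - Polynomial.C x0) * (Polynomial.X - Polynomial.C x1) =
        Polynomial.X ^ 2 - Polynomial.C (x0 + x1) * Polynomial.X + Polynomial.C (x0 * x1) := by
      rw [Polynomial.C_add, Polynomial.C_mul]; ring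
    rw [e]
    simp [Polynomial.coeff_X, Polynomial.coeff_C]
  have c1 : P.coeff 1 - v0 ^ 6 * Q.coeff 1 = -(c * (x0 + x1)) := by
    have := congrArg (fun p => Polynomial.coeff p 1) h01
    simp only [Polynomial.coeff_sub, Polynomial.coeff_C_mul] at this
    rw [this]
    have e : (Polynomial.X - Polynomial.C x0) * (Polynomial.X - Polynomial.C x1) =
        Polynomial.X ^ 2 - Polynomial.C (x0 + x1) * Polynomial.X + Polynomial.C (x0 * x1) := by
      rw [Polynomial.C_add, Polynomial.C_mul]; ring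
    rw [e]
    simp [Polynomial.coeff_X, Polynomial.coeff_C]
    ring
  have c0 : P.coeff 0 - v0 ^ 6 * Q.coeff 0 = c * (x0 * x1) := by
    have := congrArg (fun p => Polynomial.coeff p 0) h01
    simp only [Polynomial.coeff_sub, Polynomial.coeff_C_mul] at this
    rw [this]
    have e : (Polynomial.X - Polynomial.C x0) * (Polynomial.X - Polynomial.C x1) =
        Polynomial.X ^ 2 - Polynomial.C (x0 + x1) * Polynomial.X + Polynomial.C (x0 * x1) := by
      rw [Polynomial.C_add, Polynomial.C_mul]; ring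
    rw [e]
    simp [Polynomial.coeff_X, Polynomial.coeff_C]
  obtain ⟨A, hA⟩ : ∃ A : Om k, A = algebraMap k (Om k) (P.coeff 2) -
    V ^ 6 * algebraMap k (Om k) (Q.coeff 2) := ⟨_, rfl⟩
  obtain ⟨B, hB⟩ : ∃ B : Om k, B = algebraMap k (Om k) (P.coeff 1) -
    V ^ 6 * algebraMap k (Om k) (Q.coeff 1) := ⟨_, rfl⟩
  obtain ⟨C, hC⟩ : ∃ C : Om k, C = algebraMap k (Om k) (P.coeff 0) -
    V ^ 6 * algebraMap k (Om k) (Q.coeff 0) := ⟨_, rfl⟩
  have hA0 : A ≠ 0 := by
    intro h0
    apply aeval_ne_zero hVtr (p := Polynomial.C (P.coeff 2) -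
      Polynomial.X ^ 6 * Polynomial.C (Q.coeff 2))
    · intro h1
      have h2 := congrArg (Polynomial.eval v0) h1
      simp only [Polynomial.eval_sub, Polynomial.eval_mul, Polynomial.eval_pow, Polynomial.eval_X,
        Polynomial.eval_C, Polynomial.eval_zero] at h2
      exact hc (c2 ▸ h2)
    · simp only [map_sub, map_mul, map_pow, Polynomial.aeval_X, Polynomial.aeval_C]
      rw [← h0, hA]
  obtain ⟨X0, hX0⟩ : ∃ X0 : Om k, A * X0 ^ 2 + B * X0 + C = 0 := by
    obtain ⟨s, hs⟩ := IsAlgClosed.exists_pow_nat_eq (B ^ 2 - 4 * A * C) (n := 2) two_pos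
    refine ⟨(-B + s) / (2 * A), ?_⟩
    field_simp
    linear_combination hs
  obtain ⟨X1, hX1⟩ : ∃ X1 : Om k, X1 = -B / A - X0 := ⟨_, rfl⟩
  have hsum : A * (X0 + X1) = -B := by rw [hX1]; field_simp; ring
  have hX1' : A * X1 ^ 2 + B * X1 + C = 0 := by
    linear_combination hX0 + (X1 - X0) * hsum
  have hprod : A * (X0 * X1) = C := by linear_combination -hX0 + X0 * hsum
  have hpl : ∀ (K : Type u) [Field K] [Algebra k K] (_ : IsFunctionField k K) (τ ξ0 ξ1 : K),
      (algebraMap k K (P.coeff 2) - τ ^ 6 * algebraMap k K (Q.coeff 2)) * (ξ0 + ξ1) =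
        -(algebraMap k K (P.coeff 1) - τ ^ 6 * algebraMap k K (Q.coeff 1)) →
      (algebraMap k K (P.coeff 2) - τ ^ 6 * algebraMap k K (Q.coeff 2)) * (ξ0 * ξ1) =
        algebraMap k K (P.coeff 0) - τ ^ 6 * algebraMap k K (Q.coeff 0) →
      ∀ (w : Place k K) (c' : k), c' ^ 6 = v0 ^ 6 → IsRes w τ c' →
        (IsRes w ξ0 x0 ∧ IsRes w ξ1 x1) ∨ (IsRes w ξ0 x1 ∧ IsRes w ξ1 x0) := by
    intro K _ _ hK τ ξ0 ξ1 e1 e2 w c' hc' hτ
    have r2 : IsRes w (algebraMap k K (P.coeff 2) - τ ^ 6 * algebraMap k K (Q.coeff 2)) c := by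
      have := (isRes_const (v := w) (P.coeff 2)).sub ((hτ.pow 6).mul (isRes_const (Q.coeff 2)))
      rwa [hc', c2] at this
    have r1 : IsRes w (algebraMap k K (P.coeff 1) - τ ^ 6 * algebraMap k K (Q.coeff 1))
        (-(c * (x0 + x1))) := by
      have := (isRes_const (v := w) (P.coeff 1)).sub ((hτ.pow 6).mul (isRes_const (Q.coeff 1)))
      rwa [hc', c1] at this
    have r0 : IsRes w (algebraMap k K (P.coeff 0) - τ ^ 6 * algebraMap k K (Q.coeff 0))
        (c * (x0 * x1)) := by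
      have := (isRes_const (v := w) (P.coeff 0)).sub ((hτ.pow 6).mul (isRes_const (Q.coeff 0)))
      rwa [hc', c0] at this
    have n2 := r2.ne_zero hc
    apply res_roots hK
    · have := res_div hK r1.neg r2 hc
      have e : -(algebraMap k K (P.coeff 1) - τ ^ 6 * algebraMap k K (Q.coeff 1)) /
          (algebraMap k K (P.coeff 2) - τ ^ 6 * algebraMap k K (Q.coeff 2)) = ξ0 + ξ1 := by
        rw [← e1, mul_div_cancel_left₀ _ n2]
      rw [e, neg_neg, mul_div_cancel_left₀ _ hc] at this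
      exact this
    · have := res_div hK r0 r2 hc
      have e : (algebraMap k K (P.coeff 0) - τ ^ 6 * algebraMap k K (Q.coeff 0)) /
          (algebraMap k K (P.coeff 2) - τ ^ 6 * algebraMap k K (Q.coeff 2)) = ξ0 * ξ1 := by
        rw [← e2, mul_div_cancel_left₀ _ n2]
      rw [e, mul_div_cancel_left₀ _ hc] at this
      exact this
  have hpull : ∀ {K : Type u} [Field K] [Algebra k K] (j : K →ₐ[k] Om k) {τ ξ0 ξ1 : K},
      j τ = V → j ξ0 = X0 → j ξ1 = X1 →
      (algebraMap k K (P.coeff 2) - τ ^ 6 * algebraMap k K (Q.coeff 2)) * (ξ0 + ξ1) =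
        -(algebraMap k K (P.coeff 1) - τ ^ 6 * algebraMap k K (Q.coeff 1)) ∧
      (algebraMap k K (P.coeff 2) - τ ^ 6 * algebraMap k K (Q.coeff 2)) * (ξ0 * ξ1) =
        algebraMap k K (P.coeff 0) - τ ^ 6 * algebraMap k K (Q.coeff 0) := by
    intro K _ _ j τ ξ0 ξ1 h1 h2 h3
    have hinj : Function.Injective j := j.toRingHom.injective
    constructor
    · apply hinj
      simp only [map_mul, map_sub, map_add, map_neg, map_pow, AlgHom.commutes, h1, h2, h3]
      rw [← hA, ← hB]
      exact hsum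
    · apply hinj
      simp only [map_mul, map_sub, map_pow, AlgHom.commutes, h1, h2, h3]
      rw [← hA, ← hC]
      exact hprod
  -- nonvanishing
  have hnv : ∀ T : Polynomial k, T.eval x0 ≠ 0 → T.eval x1 ≠ 0 →
      Polynomial.aeval X0 T ≠ 0 ∧ Polynomial.aeval X1 T ≠ 0 := by
    intro T hT0 hT1
    obtain ⟨K, _, _, j, τ, ξ, hK, hτ, hjτ, hξ⟩ := exists_ff' (k := k) (α := Fin 2) ![X0, X1]
    rw [← hV] at hjτ
    obtain ⟨e1, e2⟩ := hpull j hjτ (hξ 0) (hξ 1)
    have hτa : Transcendental k (τ - algebraMap k K v0) := by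
      intro h6
      apply hτ
      have := h6.add (isAlgebraic_algebraMap (A := K) v0)
      rwa [sub_add_cancel] at this
    obtain ⟨w, hw⟩ := exists_place hK hτa
    have hw' : IsRes w τ v0 := hw
    have hj : ∀ x : K, Polynomial.aeval (j x) T = j (Polynomial.aeval x T) := fun x =>
      Polynomial.aeval_algHom_apply j x T
    have hne : Polynomial.aeval (ξ 0) T ≠ 0 ∧ Polynomial.aeval (ξ 1) T ≠ 0 := by
      rcases hpl K hK τ (ξ 0) (ξ 1) e1 e2 w v0 rfl hw' with ⟨f1, f2⟩ | ⟨f1, f2⟩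
      · exact ⟨(isRes_aeval' f1 T).ne_zero hT0, (isRes_aeval' f2 T).ne_zero hT1⟩
      · exact ⟨(isRes_aeval' f1 T).ne_zero hT1, (isRes_aeval' f2 T).ne_zero hT0⟩
    have hinj : Function.Injective j := j.toRingHom.injective
    constructor
    · intro h0
      apply hne.1
      apply hinj
      rw [← hj, hξ 0, map_zero]
      exact h0
    · intro h0
      apply hne.2
      apply hinj
      rw [← hj, hξ 1, map_zero]
      exact h0
  -- the points
  have hpt : ∀ X : Om k, A * X ^ 2 + B * X + C = 0 → Polynomial.aeval X Q ≠ 0 →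
      (∀ i, Polynomial.aeval X (N i) ≠ 0) → (∀ i, Polynomial.aeval X (M i) ≠ 0) →
      ∃ u : ι → Om k, (∀ i, OnX (algebraMap k (Om k) (b i)) (algebraMap k (Om k) (disc a b i))
        (Polynomial.aeval X (N i) / Polynomial.aeval X (M i)) (u i)) ∧ ∏ i, u i = V := by
    intro X hX hQX hNX hMX
    have hV0 : V ≠ 0 := by
      intro h0
      apply hVtr
      rw [h0]
      exact isAlgebraic_zero
    refine exists_v (fun i => div_ne_zero (hNX i) (hMX i)) hV0 ?_
    have e1 := congrArg (Polynomial.aeval X) hPQ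
    simp only [map_mul, map_prod, map_add, map_pow, Polynomial.aeval_C, map_ofNat] at e1
    have e2 : Polynomial.aeval X P = V ^ 6 * Polynomial.aeval X Q := by
      rw [q2 P hP, q2 Q hQ]
      rw [hA, hB, hC] at hX
      linear_combination hX
    rw [e2] at e1
    have e3 : (∏ i, (4 * Polynomial.aeval X (N i) ^ 2 + 4 * algebraMap k (Om k) (b i) *
        Polynomial.aeval X (N i) * Polynomial.aeval X (M i) +
        algebraMap k (Om k) (disc a b i) * Polynomial.aeval X (M i) ^ 2)) =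
        V ^ 6 * ∏ i, (4 * Polynomial.aeval X (N i) * Polynomial.aeval X (M i)) := by
      apply mul_right_cancel₀ hQX
      linear_combination e1
    have e4 : ∏ i, (4 * Polynomial.aeval X (N i) * Polynomial.aeval X (M i)) ≠ 0 :=
      Finset.prod_ne_zero_iff.mpr (fun i _ => mul_ne_zero (mul_ne_zero (by norm_num) (hNX i))
        (hMX i))
    rw [← mul_div_cancel_right₀ (V ^ 6) e4, ← e3, ← Finset.prod_div_distrib]
    apply Finset.prod_congr rfl
    intro i _
    have := hNX i
    have := hMX i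
    field_simp
  have n0 : ∀ i, Polynomial.aeval X0 (N i) ≠ 0 := fun i => (hnv _ (hN0 i) (hN1 i)).1
  have n1 : ∀ i, Polynomial.aeval X1 (N i) ≠ 0 := fun i => (hnv _ (hN0 i) (hN1 i)).2
  have m0 : ∀ i, Polynomial.aeval X0 (M i) ≠ 0 := fun i => (hnv _ (hM0 i) (hM1 i)).1
  have m1 : ∀ i, Polynomial.aeval X1 (M i) ≠ 0 := fun i => (hnv _ (hM0 i) (hM1 i)).2
  obtain ⟨U0, hU0, hU0'⟩ := hpt X0 hX0 (hnv _ hQ0 hQ1).1 n0 m0
  obtain ⟨U1, hU1, hU1'⟩ := hpt X1 hX1' (hnv _ hQ0 hQ1).2 n1 m1
  obtain ⟨K, _, _, j, τ, ξ, hK, hτ, hjτ, hξ⟩ := exists_ff' (k := k) (α := Fin 2 ⊕ (ι ⊕ ι))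
    (Sum.elim ![X0, X1] (Sum.elim U0 U1))
  rw [← hV] at hjτ
  have hξ0 : j (ξ (Sum.inl 0)) = X0 := hξ (Sum.inl 0)
  have hξ1 : j (ξ (Sum.inl 1)) = X1 := hξ (Sum.inl 1)
  have hu0 : ∀ i, j (ξ (Sum.inr (Sum.inl i))) = U0 i := fun i => hξ (Sum.inr (Sum.inl i))
  have hu1 : ∀ i, j (ξ (Sum.inr (Sum.inr i))) = U1 i := fun i => hξ (Sum.inr (Sum.inr i))
  obtain ⟨e1, e2⟩ := hpull j hjτ hξ0 hξ1
  have hinj : Function.Injective j := j.toRingHom.injective
  have hj : ∀ (x : K) (T : Polynomial k), Polynomial.aeval (j x) T = j (Polynomial.aeval x T) :=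
    fun x T => Polynomial.aeval_algHom_apply j x T
  obtain ⟨s0, hs0⟩ : ∃ s, s = ξ (Sum.inl 0) := ⟨_, rfl⟩
  obtain ⟨s1, hs1⟩ : ∃ s, s = ξ (Sum.inl 1) := ⟨_, rfl⟩
  rw [← hs0] at hξ0 e1 e2
  rw [← hs1] at hξ1 e1 e2
  have hc0 : ∀ i, OnX (algebraMap k K (b i)) (algebraMap k K (disc a b i))
      (Polynomial.aeval s0 (N i) / Polynomial.aeval s0 (M i)) (ξ (Sum.inr (Sum.inl i))) := by
    intro i
    apply onX_of_inj j.toRingHom
    have := hU0 i
    rw [← hξ0, hj, hj, ← map_div₀, ← hu0] at this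
    simp only [AlgHom.toRingHom_eq_coe, RingHom.coe_coe, AlgHom.commutes]
    exact this
  have hc1 : ∀ i, OnX (algebraMap k K (b i)) (algebraMap k K (disc a b i))
      (Polynomial.aeval s1 (N i) / Polynomial.aeval s1 (M i)) (ξ (Sum.inr (Sum.inr i))) := by
    intro i
    apply onX_of_inj j.toRingHom
    have := hU1 i
    rw [← hξ1, hj, hj, ← map_div₀, ← hu1] at this
    simp only [AlgHom.toRingHom_eq_coe, RingHom.coe_coe, AlgHom.commutes]
    exact this
  have hp0 : ∏ i, ξ (Sum.inr (Sum.inl i)) = τ := by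
    apply hinj
    rw [map_prod, hjτ, ← hU0']
    exact Finset.prod_congr rfl (fun i _ => hu0 i)
  have hp1 : ∏ i, ξ (Sum.inr (Sum.inr i)) = τ := by
    apply hinj
    rw [map_prod, hjτ, ← hU1']
    exact Finset.prod_congr rfl (fun i _ => hu1 i)
  obtain ⟨F0, hF0, hF0'⟩ := FF_harm h hω hK hc0
  obtain ⟨F1, hF1, hF1'⟩ := FF_harm h hω hK hc1
  have hval : ∀ (c' : k), c' ^ 6 = v0 ^ 6 → ∀ w, IsRes w τ c' → F0 w + F1 w = chi ω θ (c' / v0) *
      (FF ω θ a (disc a b) ψ (fun i => (N i).eval x0 / (M i).eval x0) v +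
        FF ω θ a (disc a b) ψ (fun i => (N i).eval x1 / (M i).eval x1) v') := by
    intro c' hc' w hw
    have hr : ∀ (s : K) (x : k) (i : ι), (M i).eval x ≠ 0 → IsRes w s x →
        IsRes w (Polynomial.aeval s (N i) / Polynomial.aeval s (M i))
          ((N i).eval x / (M i).eval x) := by
      intro s x i hx hs
      exact res_div hK (isRes_aeval' hs _) (isRes_aeval' hs _) hx
    rcases hpl K hK τ s0 s1 e1 e2 w c' hc' hw with ⟨f1, f2⟩ | ⟨f1, f2⟩
    · rw [FF_val h hω hK hc0 hF0' hX (fun i => hr _ _ i (hM0 i) f1) (by rw [hp0]; exact hw),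
        FF_val h hω hK hc1 hF1' hX' (fun i => hr _ _ i (hM1 i) f2) (by rw [hp1]; exact hw),
        hv, hv']
      ring
    · rw [FF_val h hω hK hc0 hF0' hX' (fun i => hr _ _ i (hM1 i) f1) (by rw [hp0]; exact hw),
        FF_val h hω hK hc1 hF1' hX (fun i => hr _ _ i (hM0 i) f2) (by rw [hp1]; exact hw),
        hv, hv']
      ring
  have hω1 : ω ≠ 1 := by
    rintro rfl
    apply Good.three (K := k)
    linear_combination hω.k
  have hθ1 : θ ≠ 1 := by
    rintro rfl
    have := hω.c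
    norm_num at this
  have hne : v0 ≠ ω * v0 := by
    intro h0
    apply hω1
    have : (ω - 1) * v0 = 0 := by linear_combination -h0
    exact sub_eq_zero.mp ((mul_eq_zero.mp this).resolve_right hv0)
  have h6 : (ω * v0) ^ 6 = v0 ^ 6 := by
    rw [mul_pow, show ω ^ 6 = 1 by linear_combination (ω ^ 3 + 1) * hω3, one_mul]
  have hfin := (hF0.add hF1).path hτ hne (hval v0 rfl) (hval (ω * v0) h6)
  rw [div_self hv0, chi_one hω, one_mul, mul_div_cancel_right₀ _ hv0, chi_om hω] at hfin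
  have : (θ - 1) * (FF ω θ a (disc a b) ψ (fun i => (N i).eval x0 / (M i).eval x0) v +
        FF ω θ a (disc a b) ψ (fun i => (N i).eval x1 / (M i).eval x1) v') = 0 := by
    linear_combination -hfin
  exact (mul_eq_zero.mp this).resolve_left (sub_ne_zero.mpr hθ1)

end Pool.Agent.Helper51.VN

end CX
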