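import Mathlib
import Pool.Agent.Helper40.CX.H51VN.LemP
import Pool.Agent.Helper40.CX.H51VN.Fourier
import Pool.Agent.Helper40.CX.H83VN.Defs
import Pool.Agent.Helper40.CX.Good2

namespace CX

/-!
# The function `GF`
-/

set_option linter.unusedSectionVars false

namespace Pool.Agent.Helper51.VN

open VC VF VP Function
open Pool.Agent.Helper83.VN

universe u

variable {k : Type u} [Field k] [IsAlgClosed k] [Good k] {ι : Type} [Fintype ι]
  [DecidableEq ι]

/-- The discriminants. -/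
def dsc (a b : ι → k) (i : ι) : k := b i ^ 2 - a i ^ 3

open Classical in
/-- The value of `FF` for sixth roots of the `Υ (z)` with product `v`. -/
noncomputable def GF (ω : k) (θ : ℂ) (a b : ι → k) (ψ : (ι → k × k) → ℂ) (z : ι → k) (v : k) : ℂ :=
  if h : ∃ v' : ι → k, (∀ i, OnX (b i) (dsc a b i) (z i) (v' i)) ∧ ∏ i, v' i = v then
    FF ω θ a (dsc a b) ψ z h.choose else 0

/-- `ρ = κ / A`, `A` the product of the `a i`; `ρ ^ 2 = A` for a chain. -/
noncomputable def rho (a : ι → k) (c : List (Ed ι k)) : k := kap c / ∏ i, a i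

/-- The function on the total curve. -/
noncomputable def Gam (ω : k) (θ : ℂ) (a b : ι → k) (ψ : (ι → k × k) → ℂ) (c : List (Ed ι k)) (μ : k) : ℂ :=
  GF ω θ a b ψ (zof c) (rho a c / μ) +
    GF ω θ a b ψ (zof (fam c ((vec c).flat (rho a c) μ))) μ

variable {ω : k} {θ : ℂ} {a b : ι → k} {ψ : (ι → k × k) → ℂ}

lemma dsc_eq : dsc a b = disc a b := rfl

/-- Two systems of sixth roots with the same product. -/
lemma FF_prod (hω : Cub ω θ) (hψ : Fun a b ψ) {z v v' : ι → k} {c : k}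
    (h : ∀ i, OnX (b i) (dsc a b i) (z i) (v i)) (h' : ∀ i, OnX (b i) (dsc a b i) (z i) (v' i))
    (hc : ∏ i, v' i = c * ∏ i, v i) :
    FF ω θ a (dsc a b) ψ z v' = chi ω θ c * FF ω θ a (dsc a b) ψ z v := by
  have hv0 : ∀ i, v i ≠ 0 := fun i => (h i).2.1
  have h4 : ∀ i, v' i / v i * v i = v' i := fun i => div_mul_cancel₀ _ (hv0 i)
  have h5 := FF_mu hψ hω (η := fun i => v' i / v i) h (fun i => by
    rw [div_pow, (h i).2.2, (h' i).2.2, div_self]
    rw [← (h i).2.2]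
    exact pow_ne_zero 6 (hv0 i))
  simp only [h4] at h5
  rw [dsc_eq, h5, Finset.prod_div_distrib, hc, mul_div_assoc, div_self
    (Finset.prod_ne_zero_iff.mpr (fun i _ => hv0 i)), mul_one]

theorem gf_eq (hω : Cub ω θ) (hψ : Fun a b ψ) {z v' : ι → k} {v : k}
    (h : ∀ i, OnX (b i) (dsc a b i) (z i) (v' i)) (hv : ∏ i, v' i = v) :
    GF ω θ a b ψ z v = FF ω θ a (dsc a b) ψ z v' := by
  have hex : ∃ v' : ι → k, (∀ i, OnX (b i) (dsc a b i) (z i) (v' i)) ∧ ∏ i, v' i = v :=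
    ⟨v', h, hv⟩
  unfold GF
  rw [dif_pos hex]
  have := FF_prod hω hψ h hex.choose_spec.1 (c := 1) (by rw [hex.choose_spec.2, hv, one_mul])
  rw [this, chi_one hω, one_mul]

/-- Multiplication of `v` by a sixth root of unity. -/
theorem gf_six (hω : Cub ω θ) (hψ : Fun a b ψ) [Nonempty ι] (z : ι → k) (v : k) {η : k}
    (hη : η ^ 6 = 1) : GF ω θ a b ψ z (η * v) = chi ω θ η * GF ω θ a b ψ z v := by
  obtain ⟨i0⟩ := ‹Nonempty ι›
  have key : ∀ (η v : k), η ^ 6 = 1 → ∀ v' : ι → k,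
      (∀ i, OnX (b i) (dsc a b i) (z i) (v' i)) → ∏ i, v' i = v →
      ∃ v'' : ι → k, (∀ i, OnX (b i) (dsc a b i) (z i) (v'' i)) ∧ ∏ i, v'' i = η * v := by
    intro η v hη v' h hv
    refine ⟨fun i => (if i = i0 then η else 1) * v' i, fun i => (h i).mul_six ?_, ?_⟩
    · split_ifs
      · exact hη
      · exact one_pow _
    · rw [Finset.prod_mul_distrib, Finset.prod_ite_eq' Finset.univ i0 (fun _ => η),
        if_pos (Finset.mem_univ _), hv]
  have hη0 : η ≠ 0 := by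
    rintro rfl
    norm_num at hη
  by_cases hex : ∃ v' : ι → k, (∀ i, OnX (b i) (dsc a b i) (z i) (v' i)) ∧ ∏ i, v' i = v
  · obtain ⟨v', h, hv⟩ := hex
    obtain ⟨v'', h', hv'⟩ := key η v hη v' h hv
    rw [gf_eq hω hψ h' hv', gf_eq hω hψ h hv]
    exact FF_prod hω hψ h h' (by rw [hv', hv])
  · have hex' : ¬ ∃ v' : ι → k, (∀ i, OnX (b i) (dsc a b i) (z i) (v' i)) ∧ ∏ i, v' i = η * v := by
      rintro ⟨v', h, hv⟩
      apply hex
      obtain ⟨v'', h', hv'⟩ := key η⁻¹ (η * v) (by rw [inv_pow, hη, inv_one]) v' h hv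
      exact ⟨v'', h', by rw [hv', inv_mul_cancel_left₀ hη0]⟩
    unfold GF
    rw [dif_neg hex, dif_neg hex', mul_zero]

theorem gf_omega (hω : Cub ω θ) (hψ : Fun a b ψ) (z : ι → k) (v : k) [Nonempty ι] :
    GF ω θ a b ψ z (ω * v) = θ * GF ω θ a b ψ z v := by
  have := gf_six hω hψ z v (η := ω) (by linear_combination (ω ^ 3 + 1) * om3 hω.k)
  rwa [chi_om hω] at this

theorem gf_neg (hω : Cub ω θ) (hψ : Fun a b ψ) (z : ι → k) (v : k) [Nonempty ι] :
    GF ω θ a b ψ z (-v) = -GF ω θ a b ψ z v := by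
  have := gf_six hω hψ z v (η := -1) (by norm_num)
  rwa [neg_one_mul, chi_neg_one hω, neg_one_mul] at this

theorem psi_zero (hω : Cub ω θ) (hψ : Fun a b ψ) (hD : ∀ i, dsc a b i ≠ 0)
    (ha : ∀ i, a i ≠ 0)
    (h : ∀ z v : ι → k, (∀ i, OnX (b i) (dsc a b i) (z i) (v i)) → FF ω θ a (dsc a b) ψ z v = 0)
    (p : ι → k × k) (hp : ∀ i, OnE (a i) (b i) (p i).1 (p i).2) : ψ p = 0 := by
  obtain ⟨κ, hκ⟩ : ∃ κ : ι → k, ∀ i, κ i ^ 2 = a i ^ 3 := by
    choose κ hκ using fun i => IsAlgClosed.exists_pow_nat_eq (a i ^ 3) (n := 2) two_pos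
    exact ⟨κ, hκ⟩
  have hex : ∀ i, ∃ z v : k, OnX (b i) (dsc a b i) z v ∧ px (a i) v = (p i).1 ∧
      py (dsc a b i) z v = (p i).2 := by
    intro i
    obtain ⟨s, hs⟩ := IsAlgClosed.exists_pow_nat_eq ((p i).1 ^ 2 - 4 * a i) (n := 2) two_pos
    obtain ⟨v, hv⟩ := IsAlgClosed.exists_pow_nat_eq (((p i).1 + s) / 2) (n := 2) two_pos
    have hv4 : v ^ 4 - (p i).1 * v ^ 2 + a i = 0 := by
      have : v ^ 4 = (((p i).1 + s) / 2) ^ 2 := by rw [← hv]; ring
      rw [this, hv]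
      field_simp
      linear_combination hs
    have hv0 : v ≠ 0 := by
      rintro rfl
      apply ha i
      linear_combination hv4
    have hx : px (a i) v = (p i).1 := by
      unfold px
      field_simp
      linear_combination hv4
    have hE := hp i
    unfold OnE at hE
    obtain ⟨z, hz⟩ : ∃ z, z = (v ^ 6 - b i + v ^ 3 * (p i).2) / 2 := ⟨_, rfl⟩
    have hE' : v ^ 6 * (p i).2 ^ 2 = v ^ 12 + a i ^ 3 - 2 * b i * v ^ 6 := by
      rw [hE, ← hx]
      unfold px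
      field_simp
      ring
    have h2z : 2 * z = v ^ 6 - b i + v ^ 3 * (p i).2 := by
      rw [hz]
      field_simp
    have hzz : 4 * (z * (v ^ 6 - b i - z)) = dsc a b i := by
      unfold dsc
      linear_combination -(2 * z - (v ^ 6 - b i) + v ^ 3 * (p i).2) * h2z - hE'
    have hz0 : z ≠ 0 := by
      intro h0
      apply hD i
      rw [← hzz, h0, zero_mul, mul_zero]
    have hdz : dsc a b i / (4 * z) = v ^ 6 - b i - z := by
      rw [div_eq_iff (mul_ne_zero four_ne_zero hz0)]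
      linear_combination -hzz
    refine ⟨z, v, ⟨hz0, hv0, ?_⟩, hx, ?_⟩
    · rw [hdz]; ring
    · unfold py
      rw [hdz, div_eq_iff (pow_ne_zero 3 hv0)]
      linear_combination h2z
  choose z v hX hx hy using hex
  have h1 := fourier hψ hω ha hD hκ hX
  have h2 : ∀ S : ι → Bool, FF ω θ a (disc a b) ψ (flipz κ b z S) (flipv κ a v S) = 0 := by
    intro S
    refine h _ _ ?_
    intro i
    unfold flipz flipv
    split_ifs
    · exact (hX i).fl (ha i) (hκ i) (by rw [hκ i]; rfl) (hD i)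
    · exact hX i
  rw [Finset.sum_eq_zero (fun S _ => h2 S)] at h1
  have h3 := (mul_eq_zero.mp h1).resolve_left (pow_ne_zero _ (by norm_num))
  rw [← h3]
  congr 1
  funext i
  exact Prod.ext (hx i).symm (hy i).symm

end Pool.Agent.Helper51.VN

end CX
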