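import Mathlib
import Pool.Agent.Helper40.CX.H51VN.Gf
import Pool.Agent.Helper40.CX.Good2

namespace CX

/-!
# Lemma P for `GF`; recutting
-/

set_option linter.unusedSectionVars false

namespace Pool.Agent.Helper51.VN

open VC VF VP Function
open Pool.Agent.Helper83.VN

universe u

variable {k : Type u} [Field k] [IsAlgClosed k] [Good k] {ι : Type} [Fintype ι]
  [DecidableEq ι] {ω : k} {θ : ℂ} {a b : ι → k} {ψ : (ι → k × k) → ℂ}

/-- `GF` vanishes if `v ^ 6` is not the product of the `Υ`. -/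
lemma gf_zero {z : ι → k} {v : k}
    (h : (∀ i, z i ≠ 0) → v ^ 6 ≠ ∏ i, (z i + b i + dsc a b i / (4 * z i))) :
    GF ω θ a b ψ z v = 0 := by
  unfold GF
  rw [dif_neg]
  rintro ⟨v', h1, h2⟩
  apply h (fun i => (h1 i).1)
  rw [← h2, ← Finset.prod_pow]
  exact Finset.prod_congr rfl (fun i _ => (h1 i).2.2)

theorem gfP [Nonempty ι] (hω : Cub ω θ) (hψ : Fun a b ψ) {N M : ι → Polynomial k}
    {P Q : Polynomial k} (hP : P.natDegree ≤ 2) (hQ : Q.natDegree ≤ 2)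
    (hPQ : (∏ i, (4 * N i ^ 2 + 4 * Polynomial.C (b i) * N i * M i +
      Polynomial.C (dsc a b i) * M i ^ 2)) * Q = P * ∏ i, (4 * N i * M i))
    {x0 x1 c u : k} (hc : c ≠ 0) (hu : u ≠ 0)
    (h01 : P - Polynomial.C u * Q =
      Polynomial.C c * ((Polynomial.X - Polynomial.C x0) * (Polynomial.X - Polynomial.C x1)))
    (hN0 : ∀ i, (N i).eval x0 ≠ 0) (hN1 : ∀ i, (N i).eval x1 ≠ 0)
    (hM0 : ∀ i, (M i).eval x0 ≠ 0) (hM1 : ∀ i, (M i).eval x1 ≠ 0)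
    (hQ0 : Q.eval x0 ≠ 0) (hQ1 : Q.eval x1 ≠ 0) (v : k) :
    GF ω θ a b ψ (fun i => (N i).eval x0 / (M i).eval x0) v +
      GF ω θ a b ψ (fun i => (N i).eval x1 / (M i).eval x1) v = 0 := by
  have key : ∀ x : k, (x = x0 ∨ x = x1) → (∀ i, (N i).eval x ≠ 0) → (∀ i, (M i).eval x ≠ 0) →
      Q.eval x ≠ 0 → u = ∏ i, ((N i).eval x / (M i).eval x + b i +
        dsc a b i / (4 * ((N i).eval x / (M i).eval x))) := by
    intro x hx hN hM hQx
    have e1 := congrArg (Polynomial.eval x) hPQ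
    simp only [Polynomial.eval_mul, Polynomial.eval_prod, Polynomial.eval_add,
      Polynomial.eval_pow, Polynomial.eval_C, Polynomial.eval_ofNat] at e1
    have e2 := congrArg (Polynomial.eval x) h01
    simp only [Polynomial.eval_mul, Polynomial.eval_sub, Polynomial.eval_C,
      Polynomial.eval_X] at e2
    have e3 : P.eval x = u * Q.eval x := by
      rcases hx with rfl | rfl
      · rw [sub_self, zero_mul, mul_zero] at e2
        exact sub_eq_zero.mp e2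
      · rw [sub_self, mul_zero, mul_zero] at e2
        exact sub_eq_zero.mp e2
    rw [e3] at e1
    have e4 : (∏ i, (4 * (N i).eval x ^ 2 + 4 * b i * (N i).eval x * (M i).eval x +
        dsc a b i * (M i).eval x ^ 2)) = u * ∏ i, (4 * (N i).eval x * (M i).eval x) := by
      apply mul_right_cancel₀ hQx
      linear_combination e1
    have e5 : ∏ i, (4 * (N i).eval x * (M i).eval x) ≠ 0 :=
      Finset.prod_ne_zero_iff.mpr (fun i _ => mul_ne_zero (mul_ne_zero (by norm_num) (hN i))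
        (hM i))
    rw [← mul_div_cancel_right₀ u e5, ← e4, ← Finset.prod_div_distrib]
    apply Finset.prod_congr rfl
    intro i _
    have := hN i
    have := hM i
    field_simp
  by_cases hv : v ^ 6 = u
  · have hv0 : v ≠ 0 := by
      rintro rfl
      apply hu
      rw [← hv]
      norm_num
    obtain ⟨w0, hw0, hw0'⟩ := exists_v (fun i => div_ne_zero (hN0 i) (hM0 i)) hv0
      (by rw [hv]; exact key x0 (Or.inl rfl) hN0 hM0 hQ0)
    obtain ⟨w1, hw1, hw1'⟩ := exists_v (fun i => div_ne_zero (hN1 i) (hM1 i)) hv0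
      (by rw [hv]; exact key x1 (Or.inr rfl) hN1 hM1 hQ1)
    rw [gf_eq hω hψ hw0 hw0', gf_eq hω hψ hw1 hw1']
    exact lemP hψ hω hP hQ hPQ hc hv0 (by rw [hv]; exact h01) hN0 hN1 hM0 hM1 hQ0 hQ1 hw0 hw1
      hw0' hw1'
  · rw [gf_zero (fun _ h0 => hv (h0.trans (key x0 (Or.inl rfl) hN0 hM0 hQ0).symm)),
      gf_zero (fun _ h0 => hv (h0.trans (key x1 (Or.inr rfl) hN1 hM1 hQ1).symm)), add_zero]

section pair

variable {F : Type*} [Field F] [Good F] {κ b D z : F}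

lemma Ed.st (e : Ed ι k) : e.s + e.t = e.b := by
  unfold Ed.s Ed.t
  field_simp
  ring

lemma Ed.st' (e : Ed ι k) : e.s - e.t = e.κ := by
  unfold Ed.s Ed.t
  field_simp
  ring

lemma Ed.st4 (e : Ed ι k) : 4 * (e.s * e.t) = e.b ^ 2 - e.κ ^ 2 := by
  unfold Ed.s Ed.t
  field_simp
  ring

end pair

/-- Recutting. -/
theorem relA (hω : Cub ω θ) (hψ : Fun a b ψ) {e₂ e₁ : Ed ι k} (hi : e₁.i ≠ e₂.i)
    (hb1 : e₁.b = b e₁.i) (hb2 : e₂.b = b e₂.i) (hκ1 : e₁.κ ^ 2 = a e₁.i ^ 3)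
    (hκ2 : e₂.κ ^ 2 = a e₂.i ^ 3) (f1 : e₁.Fine) (f2 : e₂.Fine) (hN : Nb e₂ e₁) {z : ι → k}
    (hz : ∀ i, z i ≠ 0) (hz1 : z e₁.i = e₁.z) (hz2 : z e₂.i = e₂.z)
    (hups : ∀ i, z i + b i + dsc a b i / (4 * z i) ≠ 0) (v : k) :
    GF ω θ a b ψ (update (update z e₁.i (swz₁ e₂ e₁)) e₂.i (swz₂ e₂ e₁)) v =
      -GF ω θ a b ψ z v := by
  have hne : Nonempty ι := ⟨e₁.i⟩
  obtain ⟨hdA, hnA, hdB, hnB⟩ := hN
  obtain ⟨i₁, hi₁⟩ : ∃ i, i = e₁.i := ⟨_, rfl⟩
  obtain ⟨i₂, hi₂⟩ : ∃ i, i = e₂.i := ⟨_, rfl⟩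
  obtain ⟨z₁, hz₁⟩ : ∃ x, x = e₁.z := ⟨_, rfl⟩
  obtain ⟨z₂, hz₂⟩ : ∃ x, x = e₂.z := ⟨_, rfl⟩
  obtain ⟨s₁, hs₁⟩ : ∃ x, x = e₁.s := ⟨_, rfl⟩
  obtain ⟨s₂, hs₂⟩ : ∃ x, x = e₂.s := ⟨_, rfl⟩
  obtain ⟨t₁, ht₁⟩ : ∃ x, x = e₁.t := ⟨_, rfl⟩
  obtain ⟨t₂, ht₂⟩ : ∃ x, x = e₂.t := ⟨_, rfl⟩
  have b1 := Ed.st e₁
  have b2 := Ed.st e₂
  have d1 := Ed.st4 e₁
  have d2 := Ed.st4 e₂
  have g1 := f1.z
  have g2 := f2.z
  have g3 := f1.zs
  have g4 := f2.zs
  have g5 := f1.zt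
  have g6 := f2.zt
  have g7 := f1.t
  have g8 := f2.t
  unfold swz₁ swz₂
  unfold dA at hdA ⊢
  unfold nA at hnA ⊢
  unfold dB at hdB ⊢
  unfold nB at hnB ⊢
  rw [hb1, hκ1] at d1
  rw [hb2, hκ2] at d2
  rw [hb1] at b1
  rw [hb2] at b2
  simp only [← hi₁, ← hi₂, ← hz₁, ← hz₂, ← hs₁, ← hs₂, ← ht₁, ← ht₂] at *
  clear hκ1 hκ2 hb1 hb2 f1 f2
  obtain ⟨dA, hA⟩ : ∃ x, x = t₂ * z₁ * z₂ + s₂ * t₂ * z₁ + s₂ * t₁ * z₂ + s₂ * t₁ * t₂ := ⟨_, rfl⟩
  obtain ⟨nA, hA'⟩ : ∃ x, x = z₁ * z₂ + s₂ * z₁ + s₁ * z₂ + s₁ * t₂ := ⟨_, rfl⟩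
  obtain ⟨dB, hB⟩ : ∃ x, x = t₁ * z₁ * z₂ + s₁ * t₁ * z₂ + s₁ * t₂ * z₁ + s₁ * t₁ * t₂ := ⟨_, rfl⟩
  obtain ⟨nB, hB'⟩ : ∃ x, x = z₁ * z₂ + s₁ * z₂ + s₂ * z₁ + s₂ * t₁ := ⟨_, rfl⟩
  rw [← hA] at hdA
  rw [← hA'] at hnA
  rw [← hB] at hdB
  rw [← hB'] at hnB
  rw [← hA, ← hA', ← hB, ← hB']
  obtain ⟨n, hn⟩ : ∃ n, n = t₂ * z₁ + t₂ * t₁ + t₁ * z₂ := ⟨_, rfl⟩
  -- the pencil
  obtain ⟨N, hNN⟩ : ∃ N : ι → Polynomial k, N = update (update (fun i => Polynomial.C (z i)) i₁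
    Polynomial.X) i₂ (Polynomial.C (t₂ * z₁ * z₂) * (Polynomial.X + Polynomial.C t₁)) := ⟨_, rfl⟩
  obtain ⟨M, hMM⟩ : ∃ M : ι → Polynomial k, M = update (fun _ => 1) i₂
    (Polynomial.C n * Polynomial.X - Polynomial.C (t₁ * z₁ * z₂)) := ⟨_, rfl⟩
  have N1 : N i₁ = Polynomial.X := by rw [hNN, update_of_ne hi, update_self]
  have N2 : N i₂ = Polynomial.C (t₂ * z₁ * z₂) * (Polynomial.X + Polynomial.C t₁) := by
    rw [hNN, update_self]
  have N3 : ∀ i, i ≠ i₁ → i ≠ i₂ → N i = Polynomial.C (z i) := fun i h1 h2 => by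
    rw [hNN, update_of_ne h2, update_of_ne h1]
  have M1 : ∀ i, i ≠ i₂ → M i = 1 := fun i h => by rw [hMM, update_of_ne h]
  have M2 : M i₂ = Polynomial.C n * Polynomial.X - Polynomial.C (t₁ * z₁ * z₂) := by
    rw [hMM, update_self]
  obtain ⟨K0, hK0⟩ : ∃ K0, K0 = ∏ i ∈ (Finset.univ.erase i₂).erase i₁,
    (z i + b i + dsc a b i / (4 * z i)) := ⟨_, rfl⟩
  have hK00 : K0 ≠ 0 := by
    rw [hK0]
    exact Finset.prod_ne_zero_iff.mpr (fun i _ => hups i)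
  have hprod : ∀ {R : Type u} [CommRing R] (f : ι → R), ∏ i, f i =
      f i₂ * (f i₁ * ∏ i ∈ (Finset.univ.erase i₂).erase i₁, f i) := by
    intro R _ f
    rw [← Finset.mul_prod_erase Finset.univ f (Finset.mem_univ i₂),
      ← Finset.mul_prod_erase (Finset.univ.erase i₂) f
        (Finset.mem_erase.mpr ⟨hi, Finset.mem_univ _⟩)]
  obtain ⟨u, hu⟩ : ∃ u, u = K0 * ((z₁ + s₁) * (z₁ + t₁) / z₁ * ((z₂ + s₂) * (z₂ + t₂) / z₂)) :=
    ⟨_, rfl⟩
  obtain ⟨x1, hx1⟩ : ∃ x, x = t₁ * z₂ * nA / dA := ⟨_, rfl⟩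
  have hD1 : dsc a b i₁ = 4 * (s₁ * t₁) := d1.symm
  have hD2 : dsc a b i₂ = 4 * (s₂ * t₂) := d2.symm
  have id1 : z₁ * z₂ + n = (z₁ + t₁) * (z₂ + t₂) := by rw [hn]; ring
  have id2 : n - t₁ * z₂ = t₂ * (z₁ + t₁) := by rw [hn]; ring
  have id3 : n * nA - z₁ * dA = (z₂ + t₂) * dB := by rw [hn, hA', hA, hB]; ring
  have id4 : z₂ * nA + dA = (z₂ + t₂) * nB := by rw [hA', hA, hB']; ring
  have hx1' : dA * x1 = t₁ * z₂ * nA := by rw [hx1]; field_simp
  have hx10 : x1 ≠ 0 := by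
    rw [hx1]
    exact div_ne_zero (mul_ne_zero (mul_ne_zero g7 g2) hnA) hdA
  have hu' : u * (z₁ * z₂) = K0 * ((z₁ + s₁) * (z₁ + t₁) * ((z₂ + s₂) * (z₂ + t₂))) := by
    rw [hu]; field_simp
  have hu0 : u ≠ 0 := by
    rw [hu]
    exact mul_ne_zero hK00 (mul_ne_zero (div_ne_zero (mul_ne_zero g3 g5) g1)
      (div_ne_zero (mul_ne_zero g4 g6) g2))
  have e21 : n * z₁ - t₁ * z₁ * z₂ = z₁ * (t₂ * (z₁ + t₁)) := by rw [← id2]; ring
  have e22 : n * x1 - t₁ * z₁ * z₂ = t₁ * z₂ * ((z₂ + t₂) * dB) / dA := by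
    rw [eq_div_iff hdA, ← id3]
    linear_combination n * hx1'
  have e23 : x1 + t₁ = t₁ * ((z₂ + t₂) * nB) / dA := by
    rw [eq_div_iff hdA, ← id4]
    linear_combination hx1'
  have m21 : (M i₂).eval z₁ = z₁ * (t₂ * (z₁ + t₁)) := by
    rw [M2]
    simp only [Polynomial.eval_sub, Polynomial.eval_mul, Polynomial.eval_C, Polynomial.eval_X]
    exact e21
  have m22 : (M i₂).eval x1 = t₁ * z₂ * ((z₂ + t₂) * dB) / dA := by
    rw [M2]
    simp only [Polynomial.eval_sub, Polynomial.eval_mul, Polynomial.eval_C, Polynomial.eval_X]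
    exact e22
  have n21 : (N i₂).eval z₁ = t₂ * z₁ * z₂ * (z₁ + t₁) := by
    rw [N2]
    simp only [Polynomial.eval_add, Polynomial.eval_mul, Polynomial.eval_C, Polynomial.eval_X]
  have n22 : (N i₂).eval x1 = t₂ * z₁ * z₂ * (t₁ * ((z₂ + t₂) * nB) / dA) := by
    rw [N2]
    simp only [Polynomial.eval_add, Polynomial.eval_mul, Polynomial.eval_C, Polynomial.eval_X]
    rw [e23]
  have m21' : (M i₂).eval z₁ ≠ 0 := by
    rw [m21]
    exact mul_ne_zero g1 (mul_ne_zero g8 g5)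
  have m22' : (M i₂).eval x1 ≠ 0 := by
    rw [m22]
    exact div_ne_zero (mul_ne_zero (mul_ne_zero g7 g2) (mul_ne_zero g6 hdB)) hdA
  have n21' : (N i₂).eval z₁ ≠ 0 := by
    rw [n21]
    exact mul_ne_zero (mul_ne_zero (mul_ne_zero g8 g1) g2) g5
  have n22' : (N i₂).eval x1 ≠ 0 := by
    rw [n22]
    exact mul_ne_zero (mul_ne_zero (mul_ne_zero g8 g1) g2)
      (div_ne_zero (mul_ne_zero g7 (mul_ne_zero g6 hnB)) hdA)
  have key := gfP hω hψ (N := N) (M := M)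
    (P := Polynomial.C (K0 * (z₁ * z₂ + n)) * ((Polynomial.X + Polynomial.C s₁) *
      (Polynomial.C dA * Polynomial.X + Polynomial.C (t₁ * z₁ * z₂ * (t₂ - s₂)))))
    (Q := Polynomial.C (z₁ * z₂) * M i₂) (x0 := z₁) (x1 := x1)
    (c := K0 * (z₁ * z₂ + n) * dA) (u := u) ?_ ?_ ?_ ?_ hu0 ?_ ?_ ?_ ?_ ?_ ?_ ?_ v
  · have r0 : (fun i => (N i).eval z₁ / (M i).eval z₁) = z := by
      funext i
      by_cases h2 : i = i₂
      · rw [h2, n21, m21, hz2]
        field_simp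
      · rw [M1 i h2, Polynomial.eval_one, div_one]
        by_cases h1 : i = i₁
        · rw [h1, N1, Polynomial.eval_X, hz1]
        · rw [N3 i h1 h2, Polynomial.eval_C]
    have r1 : (fun i => (N i).eval x1 / (M i).eval x1) =
        update (update z i₁ x1) i₂ (t₂ * z₁ * nB / dB) := by
      funext i
      by_cases h2 : i = i₂
      · rw [h2, n22, m22, update_self]
        field_simp
      · rw [M1 i h2, Polynomial.eval_one, div_one, update_of_ne h2]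
        by_cases h1 : i = i₁
        · rw [h1, N1, Polynomial.eval_X, update_self]
        · rw [N3 i h1 h2, Polynomial.eval_C, update_of_ne h1]
    rw [r0, r1, hx1] at key
    exact eq_neg_of_add_eq_zero_right key
  · refine (Polynomial.natDegree_C_mul_le _ _).trans ?_
    refine (Polynomial.natDegree_mul_le).trans ?_
    have h1 : (Polynomial.X + Polynomial.C s₁ : Polynomial k).natDegree ≤ 1 :=
      (Polynomial.natDegree_X_add_C s₁).le
    have h2 : (Polynomial.C dA * Polynomial.X +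
        Polynomial.C (t₁ * z₁ * z₂ * (t₂ - s₂)) : Polynomial k).natDegree ≤ 1 :=
      Polynomial.natDegree_linear_le
    omega
  · refine (Polynomial.natDegree_C_mul_le _ _).trans ?_
    rw [M2]
    have h2 : (Polynomial.C n * Polynomial.X - Polynomial.C (t₁ * z₁ * z₂) :
        Polynomial k).natDegree ≤ 1 := by
      rw [sub_eq_add_neg, ← Polynomial.C_neg]
      exact Polynomial.natDegree_linear_le
    omega
  · rw [hprod, hprod]
    have ho : ∏ i ∈ (Finset.univ.erase i₂).erase i₁, (4 * N i ^ 2 + 4 * Polynomial.C (b i) * N i * M i +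
        Polynomial.C (dsc a b i) * M i ^ 2) = Polynomial.C K0 *
          ∏ i ∈ (Finset.univ.erase i₂).erase i₁, (4 * N i * M i) := by
      rw [hK0, map_prod, ← Finset.prod_mul_distrib]
      apply Finset.prod_congr rfl
      intro i hi'
      have h1 : i ≠ i₁ := (Finset.mem_erase.mp hi').1
      have h2 : i ≠ i₂ := (Finset.mem_erase.mp (Finset.mem_erase.mp hi').2).1
      rw [N3 i h1 h2, M1 i h2, mul_one, mul_one, one_pow, mul_one]
      have : z i ≠ 0 := hz i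
      have e : 4 * z i ^ 2 + 4 * b i * z i + dsc a b i =
          (z i + b i + dsc a b i / (4 * z i)) * (4 * z i) := by
        field_simp
      have e' := congrArg Polynomial.C e
      simp only [map_add, map_mul, map_pow, map_ofNat] at e' ⊢
      rw [e']
    rw [ho, N1, M1 i₁ hi, hD1, hD2, ← b1, ← b2]
    obtain ⟨PP, hPP⟩ : ∃ PP, PP = ∏ i ∈ (Finset.univ.erase i₂).erase i₁, (4 * N i * M i) :=
      ⟨_, rfl⟩
    rw [← hPP, N2, M2, hA, hn]
    simp only [map_add, map_mul, map_sub, map_ofNat]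
    ring
  · exact mul_ne_zero (mul_ne_zero hK00 (by rw [id1]; exact mul_ne_zero g5 g6)) hdA
  · have h1 : Polynomial.C u * (Polynomial.C (z₁ * z₂) * M i₂) =
        Polynomial.C (K0 * ((z₁ + s₁) * (z₁ + t₁) * ((z₂ + s₂) * (z₂ + t₂)))) * M i₂ := by
      rw [← hu', Polynomial.C_mul (a := u)]
      ring
    have h2 : Polynomial.C (K0 * (z₁ * z₂ + n) * dA) * ((Polynomial.X - Polynomial.C z₁) *
        (Polynomial.X - Polynomial.C x1)) = Polynomial.C (K0 * (z₁ * z₂ + n)) *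
        ((Polynomial.X - Polynomial.C z₁) *
        (Polynomial.C dA * Polynomial.X - Polynomial.C (t₁ * z₂ * nA))) := by
      rw [← hx1']
      simp only [map_mul]
      ring
    rw [h1, h2, id1, M2, hA, hA', hn]
    simp only [map_add, map_mul, map_sub]
    ring
  · intro i
    by_cases h2 : i = i₂
    · rw [h2]; exact n21'
    · by_cases h1 : i = i₁
      · rw [h1, N1, Polynomial.eval_X]; exact g1
      · rw [N3 i h1 h2, Polynomial.eval_C]; exact hz i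
  · intro i
    by_cases h2 : i = i₂
    · rw [h2]; exact n22'
    · by_cases h1 : i = i₁
      · rw [h1, N1, Polynomial.eval_X]; exact hx10
      · rw [N3 i h1 h2, Polynomial.eval_C]; exact hz i
  · intro i
    by_cases h2 : i = i₂
    · rw [h2]; exact m21'
    · rw [M1 i h2, Polynomial.eval_one]; exact one_ne_zero
  · intro i
    by_cases h2 : i = i₂
    · rw [h2]; exact m22'
    · rw [M1 i h2, Polynomial.eval_one]; exact one_ne_zero
  · rw [Polynomial.eval_mul, Polynomial.eval_C]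
    exact mul_ne_zero (mul_ne_zero g1 g2) m21'
  · rw [Polynomial.eval_mul, Polynomial.eval_C]
    exact mul_ne_zero (mul_ne_zero g1 g2) m22'

end Pool.Agent.Helper51.VN

end CX
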