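import Mathlib
import Pool.Agent.Helper40.CX.H51VN.RelA
import Pool.Agent.Helper40.CX.Good2

namespace CX

/-!
# The moves change the sign of `GF`
-/

set_option linter.unusedSectionVars false

namespace Pool.Agent.Helper51.VN

open VC VF VP Function
open Pool.Agent.Helper83.VN

universe u

section lists

variable {ι F : Type*} [DecidableEq ι] [Field F]

lemma zof_cons (e : Ed ι F) (c : List (Ed ι F)) (i : ι) :
    zof (e :: c) i = (if e.i = i then e.z else 0) + zof c i := by
  unfold zof
  rw [List.map_cons, List.sum_cons]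

lemma zof_nil (i : ι) : zof ([] : List (Ed ι F)) i = 0 := rfl

lemma zof_notMem {c : List (Ed ι F)} {i : ι} (h : i ∉ c.map fun e => e.i) : zof c i = 0 := by
  induction c with
  | nil => rfl
  | cons e c ih =>
    rw [List.map_cons, List.mem_cons, not_or] at h
    rw [zof_cons, if_neg (fun h0 => h.1 h0.symm), ih h.2, add_zero]

lemma zof_mem {c : List (Ed ι F)} (hn : (c.map fun e => e.i).Nodup) {e : Ed ι F} (he : e ∈ c) :
    zof c e.i = e.z := by
  induction c with
  | nil => exact absurd he (List.not_mem_nil)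
  | cons f c ih =>
    rw [List.map_cons, List.nodup_cons] at hn
    rw [zof_cons]
    rcases List.mem_cons.mp he with h | h
    · subst h
      rw [if_pos rfl, zof_notMem hn.1, add_zero]
    · have hne : f.i ≠ e.i := by
        intro h0
        apply hn.1
        rw [h0]
        exact List.mem_map_of_mem h
      rw [if_neg hne, zero_add, ih hn.2 h]

lemma fine_mem {c : List (Ed ι F)} (h : FineC c) {e : Ed ι F} (he : e ∈ c) : e.Fine := by
  induction c with
  | nil => exact absurd he (List.not_mem_nil)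
  | cons f c ih =>
    obtain ⟨h1, -, -, -, h5⟩ := h
    rcases List.mem_cons.mp he with h' | h'
    · rw [h']; exact h1
    · exact ih h5 h'

/-- The effect of a move on the coordinates. -/
lemma adj_cases {c c' : List (Ed ι F)} (h : Adj c c') (hc : FineC c)
    (hn : (c.map fun e => e.i).Nodup) :
    (∃ e₂ e₁, e₂ ∈ c ∧ e₁ ∈ c ∧ e₁.i ≠ e₂.i ∧ Nb e₂ e₁ ∧
      zof c' = update (update (zof c) e₁.i (swz₁ e₂ e₁)) e₂.i (swz₂ e₂ e₁)) ∨
    (∃ e ∈ c, zof c' = update (zof c) e.i (e.s * e.t / e.z)) := by
  induction h with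
  | swap e₂ e₁ c =>
    left
    rw [List.map_cons, List.map_cons, List.nodup_cons, List.nodup_cons, List.mem_cons, not_or] at hn
    obtain ⟨⟨h1, h2⟩, h3, -⟩ := hn
    refine ⟨e₂, e₁, List.mem_cons_self, List.mem_cons_of_mem _ List.mem_cons_self,
      fun h0 => h1 h0.symm, hc.2.2.1 e₁ rfl, ?_⟩
    funext i
    rw [zof_cons, zof_cons]
    by_cases hi2 : i = e₂.i
    · subst hi2
      rw [update_self, if_pos rfl, if_neg (fun h0 => h1 h0.symm), zof_notMem h2, zero_add, add_zero]
    · rw [update_of_ne hi2]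
      by_cases hi1 : i = e₁.i
      · subst hi1
        rw [update_self, if_pos rfl, if_neg (fun h0 => h1 h0), zof_notMem h3, add_zero, add_zero]
      · rw [update_of_ne hi1, zof_cons, zof_cons, if_neg (fun h0 => hi1 h0.symm),
          if_neg (fun h0 => hi2 h0.symm), if_neg (fun h0 => hi2 h0.symm),
          if_neg (fun h0 => hi1 h0.symm)]
  | flip e =>
    right
    refine ⟨e, List.mem_singleton_self _, ?_⟩
    funext i
    rw [zof_cons, zof_nil, add_zero]
    by_cases hi : i = e.i
    · subst hi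
      rw [update_self, if_pos rfl]
    · rw [update_of_ne hi, zof_cons, zof_nil, if_neg (fun h0 => hi h0.symm),
        if_neg (fun h0 => hi h0.symm), add_zero]
  | cons e h ih =>
    rename_i c c'
    rw [List.map_cons, List.nodup_cons] at hn
    have hne : ∀ f ∈ c, f.i ≠ e.i := by
      intro f hf h0
      apply hn.1
      rw [← h0]
      exact List.mem_map_of_mem hf
    rcases ih hc.2.2.2.2 hn.2 with ⟨e₂, e₁, h2, h1, h3, h4, h5⟩ | ⟨f, hf, h5⟩
    · left
      refine ⟨e₂, e₁, List.mem_cons_of_mem _ h2, List.mem_cons_of_mem _ h1, h3, h4, ?_⟩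
      funext i
      rw [zof_cons, h5]
      by_cases hi2 : i = e₂.i
      · subst hi2
        rw [update_self, update_self, if_neg (fun h0 => hne _ h2 h0.symm), zero_add]
      · rw [update_of_ne hi2, update_of_ne hi2]
        by_cases hi1 : i = e₁.i
        · subst hi1
          rw [update_self, update_self, if_neg (fun h0 => hne _ h1 h0.symm), zero_add]
        · rw [update_of_ne hi1, update_of_ne hi1, zof_cons]
    · right
      refine ⟨f, List.mem_cons_of_mem _ hf, ?_⟩
      funext i
      rw [zof_cons, h5]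
      by_cases hi : i = f.i
      · subst hi
        rw [update_self, update_self, if_neg (fun h0 => hne _ hf h0.symm), zero_add]
      · rw [update_of_ne hi, update_of_ne hi, zof_cons]

end lists

variable {k : Type u} [Field k] [IsAlgClosed k] [Good k] {ι : Type} [Fintype ι]
  [DecidableEq ι] {ω : k} {θ : ℂ} {a b : ι → k} {ψ : (ι → k × k) → ℂ}

/-- The inversion of one coordinate. -/
theorem gf_inv (hω : Cub ω θ) (hψ : Fun a b ψ) {z : ι → k} {i : ι} (hz : z i ≠ 0)
    (hD : dsc a b i ≠ 0) (v : k) :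
    GF ω θ a b ψ (update z i (dsc a b i / (4 * z i))) v = -GF ω θ a b ψ z v := by
  have hX : ∀ v' : ι → k, (∀ j, OnX (b j) (dsc a b j) (z j) (v' j)) ↔
      ∀ j, OnX (b j) (dsc a b j) (update z i (dsc a b i / (4 * z i)) j) (v' j) := by
    intro v'
    apply forall_congr'
    intro j
    by_cases hj : j = i
    · subst hj
      rw [update_self]
      have h4 : (4 : k) * z j ≠ 0 := mul_ne_zero (by norm_num) hz
      have e : dsc a b j / (4 * z j) + b j + dsc a b j / (4 * (dsc a b j / (4 * z j))) =
          z j + b j + dsc a b j / (4 * z j) := by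
        field_simp
        ring
      unfold OnX
      rw [e]
      constructor
      · rintro ⟨-, h2, h3⟩
        exact ⟨div_ne_zero hD h4, h2, h3⟩
      · rintro ⟨-, h2, h3⟩
        exact ⟨hz, h2, h3⟩
    · rw [update_of_ne hj]
  by_cases hex : ∃ v' : ι → k, (∀ i, OnX (b i) (dsc a b i) (z i) (v' i)) ∧ ∏ i, v' i = v
  · obtain ⟨v', h1, h2⟩ := hex
    rw [gf_eq hω hψ h1 h2, gf_eq hω hψ ((hX v').mp h1) h2]
    unfold FF
    rw [← Finset.sum_neg_distrib]
    apply Finset.sum_congr rfl
    intro e _
    have hE : ∀ j, OnE (a j) (b j) (px (a j) (ω ^ (e j).val * v' j))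
        (py (dsc a b j) (z j) (ω ^ (e j).val * v' j)) := fun j =>
      ((h1 j).mul_six (om_pow6 hω.k _)).onE rfl
    have h3 := hψ.signs hE (fun j => decide (j = i))
    have hs : ∀ j, sg k (decide (j = i)) = if j = i then -1 else 1 := by
      intro j
      by_cases hj : j = i <;> simp [sg, hj]
    have hsC : ∀ j, sg ℂ (decide (j = i)) = if j = i then -1 else 1 := by
      intro j
      by_cases hj : j = i <;> simp [sg, hj]
    simp only [hs, hsC] at h3
    rw [Finset.prod_ite_eq' Finset.univ i (fun _ => (-1 : ℂ)), if_pos (Finset.mem_univ _),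
      neg_one_mul] at h3
    have h4 : (fun j => (px (a j) (ω ^ (e j).val * v' j),
        py (dsc a b j) (update z i (dsc a b i / (4 * z i)) j) (ω ^ (e j).val * v' j))) =
        (fun j => (px (a j) (ω ^ (e j).val * v' j), (if j = i then (-1 : k) else 1) *
          py (dsc a b j) (z j) (ω ^ (e j).val * v' j))) := by
      funext j
      by_cases hj : j = i
      · subst hj
        rw [update_self, if_pos rfl, neg_one_mul, py_inv hz hD]
      · rw [update_of_ne hj, if_neg hj, one_mul]
    rw [h4, h3]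
    ring
  · have hex' : ¬ ∃ v' : ι → k, (∀ j, OnX (b j) (dsc a b j)
        (update z i (dsc a b i / (4 * z i)) j) (v' j)) ∧ ∏ i, v' i = v := by
      rintro ⟨v', h1, h2⟩
      exact hex ⟨v', (hX v').mpr h1, h2⟩
    unfold GF
    rw [dif_neg hex, dif_neg hex', neg_zero]

/-- The coordinates of a nondegenerate chain. -/
lemma chain_ne {c : List (Ed ι k)} (hc : IsChain a b c) (hf : FineC c) (i : ι) :
    zof c i ≠ 0 ∧ zof c i + b i + dsc a b i / (4 * zof c i) ≠ 0 ∧ dsc a b i ≠ 0 := by
  obtain ⟨e, he, rfl⟩ := List.mem_map.mp (hc.all i)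
  have h1 := fine_mem hf he
  have h2 := hc.hb e he
  have h3 := hc.hκ e he
  rw [zof_mem hc.nodup he]
  have h4 : dsc a b e.i = 4 * (e.s * e.t) := by
    unfold dsc
    rw [Ed.st4, h2, h3]
  have hz := h1.z
  refine ⟨hz, ?_, ?_⟩
  · rw [h4, ← h2, ← Ed.st]
    have : e.z + (e.s + e.t) + 4 * (e.s * e.t) / (4 * e.z) = (e.z + e.s) * (e.z + e.t) / e.z := by
      field_simp
      ring
    rw [this]
    exact div_ne_zero (mul_ne_zero h1.zs h1.zt) hz
  · rw [h4]
    exact mul_ne_zero (by norm_num) (mul_ne_zero h1.s h1.t)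

theorem gf_adj (hω : Cub ω θ) (hψ : Fun a b ψ) {c c' : List (Ed ι k)}
    (hc : IsChain a b c) (hf : FineC c) (h : Adj c c') (v : k) :
    GF ω θ a b ψ (zof c') v = -GF ω θ a b ψ (zof c) v := by
  rcases adj_cases h hf hc.nodup with ⟨e₂, e₁, h2, h1, h3, h4, h5⟩ | ⟨e, he, h5⟩
  · rw [h5]
    exact relA hω hψ h3 (hc.hb _ h1) (hc.hb _ h2) (hc.hκ _ h1) (hc.hκ _ h2) (fine_mem hf h1)
      (fine_mem hf h2) h4 (fun i => (chain_ne hc hf i).1) (zof_mem hc.nodup h1) (zof_mem hc.nodup h2)
      (fun i => (chain_ne hc hf i).2.1) v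
  · have hz := zof_mem hc.nodup he
    have e1 : e.s * e.t / e.z = dsc a b e.i / (4 * zof c e.i) := by
      have : dsc a b e.i = 4 * (e.s * e.t) := by
        unfold dsc
        rw [Ed.st4, hc.hb e he, hc.hκ e he]
      rw [this, hz]
      have := (fine_mem hf he).z
      field_simp
    rw [h5, e1]
    exact gf_inv hω hψ (by rw [hz]; exact (fine_mem hf he).z) (chain_ne hc hf e.i).2.2 v

end Pool.Agent.Helper51.VN

end CX
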