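import Mathlib
import Pool.Agent.Helper40.CX.H94VQ.MoveLift
import Pool.Agent.Helper40.CX.H83KV.App
import Pool.Agent.Helper40.CX.H51VN.Gf
import Pool.Agent.Helper40.CX.H70VP.RH2
import Pool.Agent.Helper40.CX.Good2

namespace CX

/-!
# Block VN-APP: extension of the vanishing of `FF` along a curve

Proof in words. If some `z₀ i = 0` there is no `v` with `OnX (z₀ i) (v i)`, so all `z₀ i ≠ 0`, and
`υ i := z₀ i + b i + dsc / (4 z₀ i) = v i ^ 6 ≠ 0`. Hence `z i ≠ 0` and `Υ i := z i + b i + dsc / (4 z i)`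
has the value `υ i` at `w₀`, so `Υ i ≠ 0`. Let `L / K` be a finite extension which is a function field
and contains `u i`, `u i ^ 6 = Υ i` (`VF.exists_roots`, with `Fintype.equivFin ι`). Restriction of
places: `VQ.res hK hL : Place k L → Place k K` (see `Helper83/QF/Bc.lean`, `wmap_eval`, for the
values of elements of `K` at places of `L`); it is surjective and its fibres are finite (look in
`Helper94/VQ`, `Helper70/VP`, `Helper26/VC`: pull-back of divisors, `sum of ramification indices =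
degree`; if surjectivity is not there under this form, take it from the formula for the degree of the
pull-back of a place). `FF_harm` (in `Pth.lean`), for `z i, u i` in `L` gives a harmonic function `F`
on the places of `L`. At a place `w'` of `L` such that `res w' ∉ T` and all `z i`, `(z i)⁻¹`, `u i`,
`(u i)⁻¹` are regular at `w'` (all but finitely many: `finite_support_ord`), `F w' = 0` by hypothesis
(with `ζ`, `v` the values of `z`, `u`). By the analogue of `KV.app` for harmonic functions (same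
proof: `exists_zero_at`) `F w' = 0` for all places `w'`, in particular for one above `w₀`; there `z i`
has the value `z₀ i` and `u i` has a value `e i` with `e i ^ 6 = υ i` (`exists_res_of_pow`), so
`FF ω θ a (dsc a b) ψ z₀ e = 0`; finally `FF .. v = (∏ v / ∏ e) * FF .. e` by `FF_prod`.
-/

set_option linter.unusedSectionVars false

namespace Pool.Agent.Helper51.VN

open VC VF VP Function

universe u

variable {k : Type u} [Field k] [IsAlgClosed k] [Good k] {ι : Type} [Fintype ι]
  [DecidableEq ι] {ω : k} {θ : ℂ} {a b : ι → k} {ψ : (ι → k × k) → ℂ}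

/-- A harmonic function which vanishes at almost all places vanishes. -/
private lemma harm_app67 {K : Type u} [Field K] [Algebra k K] {hK : IsFunctionField k K}
    {F : Place k K → ℂ} (h : Harm hK F) {T : Set (Place k K)} (hT : T.Finite)
    (h0 : ∀ v, v ∉ T → F v = 0) (v : Place k K) : F v = 0 := by
  classical
  by_cases hv : v ∈ T
  swap
  · exact h0 v hv
  obtain ⟨f, hf0, hf1, hf2⟩ := Helper83.KV.exists_zero_at hK (hT.toFinset.erase v) v
    (Finset.notMem_erase v _)
  have h1 := h f hf0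
  have h2 : ∀ w ∈ (finite_support_ord hK hf0).toFinset, w ≠ v →
      (ord w.ring f : ℂ) * F w = 0 := by
    intro w _ hw
    by_cases hwT : w ∈ T
    · rw [hf2 w (Finset.mem_erase.mpr ⟨hw, hT.mem_toFinset.mpr hwT⟩), Int.cast_zero, zero_mul]
    · rw [h0 w hwT, mul_zero]
  rw [Finset.sum_eq_single v h2 (fun hn => by
    exfalso
    apply hn
    rw [Set.Finite.mem_toFinset, Set.mem_ofPred_eq]
    exact hf1)] at h1
  exact (mul_eq_zero.mp h1).resolve_left (Int.cast_ne_zero.mpr hf1)

/-- Values of elements of `K` at the places of `L`. -/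
private lemma isRes_iff67 {K L : Type u} [Field K] [Algebra k K] [Field L] [Algebra k L]
    [Algebra K L] [IsScalarTower k K L] (hK : IsFunctionField k K) (hL : IsFunctionField k L)
    (Q : Place k L) (x : K) (c : k) :
    IsRes Q (algebraMap K L x) c ↔ IsRes (VQ.res hK hL Q) x c := by
  have e : algebraMap K L x - algebraMap k L c = algebraMap K L (x - algebraMap k K c) := by
    rw [map_sub, ← IsScalarTower.algebraMap_apply k K L]
  unfold IsRes
  rw [e]
  exact (mem_nonunits_comap (IsScalarTower.toAlgHom k K L).toRingHom Q.ring _).symm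

/-- Elements of order zero have nonzero values. -/
private lemma val_ne67 {L : Type u} [Field L] [Algebra k L] (hL : IsFunctionField k L)
    {Q : Place k L} {x : L} (hx : x ≠ 0) (h : ord Q.ring x = 0) : ∃ c : k, IsRes Q x c ∧ c ≠ 0 := by
  have h1 : x ∈ Q.ring := (ord_nonneg_iff hL Q hx).mp h.ge
  obtain ⟨c, hc⟩ := VF.exists_res hL h1
  refine ⟨c, hc, ?_⟩
  rintro rfl
  have := (ord_pos_iff hL Q hx).mpr (isRes_zero_iff.mp hc)
  omega

/-- Extension of the vanishing along a curve. -/
theorem ff_app (hω : Cub ω θ) (hψ : Fun a b ψ) {K : Type u} [Field K] [Algebra k K]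
    (hK : IsFunctionField k K) (z : ι → K) (w₀ : Place k K) (z₀ : ι → k)
    (hz : ∀ i, IsRes w₀ (z i) (z₀ i)) {T : Set (Place k K)} (hT : T.Finite)
    (h : ∀ w, w ∉ T → ∀ ζ : ι → k, (∀ i, IsRes w (z i) (ζ i)) → ∀ v : ι → k,
      (∀ i, OnX (b i) (dsc a b i) (ζ i) (v i)) → FF ω θ a (dsc a b) ψ ζ v = 0) (v : ι → k)
    (hv : ∀ i, OnX (b i) (dsc a b i) (z₀ i) (v i)) : FF ω θ a (dsc a b) ψ z₀ v = 0 := by
  classical
  have hz0 : ∀ i, z₀ i ≠ 0 := fun i => (hv i).1
  have hv0 : ∀ i, v i ≠ 0 := fun i => (hv i).2.1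
  have hzne : ∀ i, z i ≠ 0 := fun i => (hz i).ne_zero (hz0 i)
  obtain ⟨Y, hY⟩ : ∃ Y : ι → K, ∀ i, Y i =
      z i + algebraMap k K (b i) + algebraMap k K (dsc a b i) / (4 * z i) := ⟨_, fun _ => rfl⟩
  have hYres : ∀ i, IsRes w₀ (Y i) (v i ^ 6) := by
    intro i
    rw [hY, (hv i).2.2]
    exact ((hz i).add (isRes_const _)).add (res_div hK (isRes_const _)
      (isRes_four'.mul (hz i)) (mul_ne_zero (by norm_num) (hz0 i)))
  have hYne : ∀ i, Y i ≠ 0 := fun i => (hYres i).ne_zero (pow_ne_zero 6 (hv0 i))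
  obtain ⟨L, _, _, _, _, y, hL, hy⟩ := VF.exists_roots hK (m := 6) (by norm_num)
    (fun j => Y ((Fintype.equivFin ι).symm j))
  obtain ⟨u, hu⟩ : ∃ u : ι → L, ∀ i, u i ^ 6 = algebraMap K L (Y i) :=
    ⟨fun i => y (Fintype.equivFin ι i), fun i => by rw [hy, Equiv.symm_apply_apply]⟩
  have hune : ∀ i, u i ≠ 0 := by
    intro i h0
    have h1 := hu i
    rw [h0, zero_pow (by norm_num)] at h1
    exact hYne i ((_root_.map_eq_zero _).mp h1.symm)
  have hzL : ∀ i, algebraMap K L (z i) ≠ 0 := fun i h0 => hzne i ((_root_.map_eq_zero _).mp h0)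
  have hX : ∀ i, OnX (algebraMap k L (b i)) (algebraMap k L (disc a b i))
      (algebraMap K L (z i)) (u i) := by
    intro i
    refine ⟨hzL i, hune i, ?_⟩
    rw [hu, hY, map_add, map_add, map_div₀, map_mul, map_ofNat,
      ← IsScalarTower.algebraMap_apply k K L, ← IsScalarTower.algebraMap_apply k K L, dsc_eq]
  obtain ⟨F, hF, hFv⟩ := FF_harm hψ hω hL hX
  have hOn : ∀ (Q : Place k L) (ζ η : ι → k), (∀ i, IsRes Q (algebraMap K L (z i)) (ζ i)) →
      (∀ i, IsRes Q (u i) (η i)) → (∀ i, ζ i ≠ 0) → (∀ i, η i ≠ 0) →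
      ∀ i, OnX (b i) (dsc a b i) (ζ i) (η i) := by
    intro Q ζ η h1 h2 h3 h4 i
    refine ⟨h3 i, h4 i, ?_⟩
    refine ((h2 i).pow 6).unique ?_
    rw [(hX i).2.2]
    exact ((h1 i).add (isRes_const _)).add (res_div hL (isRes_const _)
      (isRes_four'.mul (h1 i)) (mul_ne_zero (by norm_num) (h3 i)))
  have key : ∀ Q, F Q = 0 := by
    refine harm_app67 hF (T := {Q | VQ.res hK hL Q ∈ T} ∪
      ⋃ i, ({Q | ord Q.ring (algebraMap K L (z i)) ≠ 0} ∪ {Q | ord Q.ring (u i) ≠ 0})) ?_ ?_
    · refine Set.Finite.union ?_ (Set.finite_iUnion fun i =>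
        (finite_support_ord hL (hzL i)).union (finite_support_ord hL (hune i)))
      have e : {Q : Place k L | VQ.res hK hL Q ∈ T} =
          ⋃ P ∈ T, {Q : Place k L | VQ.res hK hL Q = P} := by
        ext Q
        simp
      rw [e]
      exact hT.biUnion (fun P _ => finite_res hK hL P)
    · intro Q hQ
      rw [Set.mem_union, not_or, Set.mem_iUnion, not_exists] at hQ
      obtain ⟨hQ1, hQ2⟩ := hQ
      have h1 : ∀ i, ord Q.ring (algebraMap K L (z i)) = 0 := by
        intro i
        by_contra h0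
        exact hQ2 i (Or.inl h0)
      have h2 : ∀ i, ord Q.ring (u i) = 0 := by
        intro i
        by_contra h0
        exact hQ2 i (Or.inr h0)
      choose ζ h3 h4 using fun i => val_ne67 hL (hzL i) (h1 i)
      choose η h5 h6 using fun i => val_ne67 hL (hune i) (h2 i)
      rw [hFv Q ζ η h3 h5 h4 h6]
      exact h (VQ.res hK hL Q) hQ1 ζ (fun i => (isRes_iff67 hK hL Q _ _).mp (h3 i)) η
        (hOn Q ζ η h3 h5 h4 h6)
  obtain ⟨Q, hQ⟩ := VP.exists_res hK hL w₀
  have hzQ : ∀ i, IsRes Q (algebraMap K L (z i)) (z₀ i) := fun i =>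
    (isRes_iff67 hK hL Q _ _).mpr (by rw [hQ]; exact hz i)
  have h6 : ∀ i, ∃ e, IsRes Q (u i) e ∧ e ^ 6 = v i ^ 6 := by
    intro i
    refine exists_res_of_pow hL (by norm_num) ?_
    rw [hu]
    exact (isRes_iff67 hK hL Q _ _).mpr (by rw [hQ]; exact hYres i)
  choose e he he6 using h6
  have he0 : ∀ i, e i ≠ 0 := by
    intro i h0
    have h1 := he6 i
    rw [h0, zero_pow (by norm_num)] at h1
    exact pow_ne_zero 6 (hv0 i) h1.symm
  have h7 := hFv Q z₀ e hzQ he hz0 he0
  rw [key Q] at h7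
  have hne : ∏ i, e i ≠ 0 := Finset.prod_ne_zero_iff.mpr (fun i _ => he0 i)
  rw [FF_prod hω hψ (hOn Q z₀ e hzQ he hz0 he0) hv (c := (∏ i, v i) / ∏ i, e i)
    (div_mul_cancel₀ _ hne).symm, dsc_eq, ← h7, mul_zero]

end Pool.Agent.Helper51.VN

end CX
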